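import Pool.Agent.LibMX2.Defs

/-! MX2 row A1 (MP_498328_ag). -/

namespace LibMX2

open AlgebraicGeometry CategoryTheory TopologicalSpace

theorem trdeg_lt {k D : Type} [Field k] [CommRing D] [IsDomain D] (f : k →+* D)
    (hf : f.FiniteType) : @Algebra.trdeg k D _ _ f.toAlgebra < Cardinal.aleph0 := by
  let _ := f.toAlgebra
  have : Algebra.FiniteType k D := hf
  exact trdeg_lt_aleph0_of_finiteType

end LibMX2
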