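import Pool.Agent.LibMX2.Defs

/-! MX2 row A2 (MP_498328_ag). -/

namespace LibMX2

open AlgebraicGeometry CategoryTheory TopologicalSpace

theorem tr_equiv {k D D' : Type} [Field k] [CommRing D] [CommRing D'] (f : k →+* D)
    (e : D ≃+* D') : tr ((e : D →+* D').comp f) = tr f := by
  let a1 : Algebra k D := f.toAlgebra
  let a2 : Algebra k D' := ((e : D →+* D').comp f).toAlgebra
  have h : (D ≃ₐ[k] D') := AlgEquiv.ofRingEquiv (f := e) (fun _ => rfl)
  have h2 := h.trdeg_eq
  unfold tr
  exact congrArg Cardinal.toNat h2.symm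

end LibMX2
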