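import Pool.Agent.LibMX2.Defs
import Pool.Agent.LibMX2.A1

/-! MX2 row A5 (MP_498328_ag). -/

namespace LibMX2

open AlgebraicGeometry CategoryTheory TopologicalSpace

theorem a5_transc {k D : Type} [Field k] [CommRing D] [IsDomain D] [Algebra k D] (P : Ideal D)
    [P.IsPrime] {ι : Type} (X : ι → D)
    (hx : AlgebraicIndependent k fun i => Ideal.Quotient.mkₐ k P (X i)) (y : D) (hy : y ∈ P)
    (hy0 : y ≠ 0) : Transcendental (Algebra.adjoin k (Set.range X)) y := by
  intro halg
  obtain ⟨q, hq0, hq⟩ := halg.exists_nonzero_coeff_and_aeval_eq_zero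
    (mem_nonZeroDivisors_of_ne_zero hy0)
  apply hq0
  have h1 : ((q.coeff 0 : Algebra.adjoin k (Set.range X)) : D) ∈ P := by
    have h2 : Polynomial.aeval y q =
        Polynomial.aeval y q.divX * y + ((q.coeff 0 : Algebra.adjoin k (Set.range X)) : D) := by
      conv_lhs => rw [← Polynomial.divX_mul_X_add q]
      rw [map_add, map_mul, Polynomial.aeval_X, Polynomial.aeval_C]
      rfl
    rw [hq] at h2
    have h3 : ((q.coeff 0 : Algebra.adjoin k (Set.range X)) : D) =
        -(Polynomial.aeval y q.divX * y) := by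
      linear_combination -h2
    rw [h3]
    exact P.neg_mem (P.mul_mem_left _ hy)
  obtain ⟨r, hr⟩ := (SetLike.ext_iff.1 (Algebra.adjoin_range_eq_range_aeval k X) _).1
    (q.coeff 0).2
  have hr' : MvPolynomial.aeval X r = ((q.coeff 0 : Algebra.adjoin k (Set.range X)) : D) := hr
  have h5 : MvPolynomial.aeval (fun i => Ideal.Quotient.mkₐ k P (X i)) r = 0 := by
    have h6 : (Ideal.Quotient.mkₐ k P) (MvPolynomial.aeval X r) = 0 := by
      rw [hr']
      exact Ideal.Quotient.eq_zero_iff_mem.2 h1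
    rw [← h6, ← MvPolynomial.comp_aeval_apply]
  have h7 : r = 0 := hx.eq_zero_of_aeval_eq_zero r h5
  apply Subtype.ext
  rw [← hr', h7, map_zero]
  rfl

theorem a5_key {k D : Type} [Field k] [CommRing D] [IsDomain D] [Algebra k D] (P : Ideal D)
    [P.IsPrime] (hP : P ≠ ⊥) : Algebra.trdeg k (D ⧸ P) + 1 ≤ Algebra.trdeg k D := by
  have : IsDomain (D ⧸ P) := Ideal.Quotient.isDomain P
  have : FaithfulSMul k (D ⧸ P) :=
    (faithfulSMul_iff_algebraMap_injective k (D ⧸ P)).2 (algebraMap k (D ⧸ P)).injective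
  obtain ⟨ι, x, hx⟩ := exists_isTranscendenceBasis' k (D ⧸ P)
  obtain ⟨y, hy, hy0⟩ := Submodule.exists_mem_ne_zero_of_ne_bot hP
  choose X hX using fun i => Ideal.Quotient.mk_surjective (x i)
  have hXx : (fun i => Ideal.Quotient.mkₐ k P (X i)) = x := funext fun i => hX i
  have hx1 : AlgebraicIndependent k fun i => Ideal.Quotient.mkₐ k P (X i) := by
    rw [hXx]
    exact hx.1
  have hX1 : AlgebraicIndependent k X := AlgebraicIndependent.of_comp (Ideal.Quotient.mkₐ k P) hx1
  have h1 := (hX1.option_iff_transcendental y).2 (a5_transc P X hx1 y hy hy0)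
  have h2 := h1.cardinalMk_le_trdeg
  rw [Cardinal.mk_option] at h2
  rw [← hx.cardinalMk_eq_trdeg]
  exact h2

theorem tr_strict {k D : Type} [Field k] [CommRing D] [IsDomain D] (f : k →+* D)
    (hf : f.FiniteType) (P : Ideal D) [P.IsPrime] (hP : P ≠ ⊥) : tr (quo f P) + 1 ≤ tr f := by
  let _ := f.toAlgebra
  have h1 : Algebra.trdeg k (D ⧸ P) + 1 ≤ Algebra.trdeg k D := a5_key P hP
  have h2 : Algebra.trdeg k D < Cardinal.aleph0 := trdeg_lt f hf
  have h3 : Cardinal.toNat (Algebra.trdeg k (D ⧸ P) + 1) ≤ Cardinal.toNat (Algebra.trdeg k D) :=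
    Cardinal.toNat_le_toNat h1 h2
  have h4 : Algebra.trdeg k (D ⧸ P) < Cardinal.aleph0 :=
    lt_of_le_of_lt (le_trans (le_add_of_nonneg_right zero_le_one) h1) h2
  rw [Cardinal.toNat_add h4 Cardinal.one_lt_aleph0, Cardinal.one_toNat] at h3
  exact h3

end LibMX2
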