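import Pool.Agent.LibMX2.Defs

/-! MX2 row A3 (MP_498328_ag). -/

namespace LibMX2

open AlgebraicGeometry CategoryTheory TopologicalSpace

theorem tr_integral {k D D' : Type} [Field k] [CommRing D] [CommRing D'] [IsDomain D']
    (f : k →+* D) (g : D →+* D') (hg : Function.Injective g) (hi : g.IsIntegral) :
    tr (g.comp f) = tr f := by
  let a1 : Algebra k D := f.toAlgebra
  let a2 : Algebra D D' := g.toAlgebra
  let a3 : Algebra k D' := (g.comp f).toAlgebra
  have st : IsScalarTower k D D' := .of_algebraMap_eq (fun _ => rfl)
  have : Nontrivial D := g.domain_nontrivial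
  have f1 : FaithfulSMul k D :=
    (faithfulSMul_iff_algebraMap_injective k D).2 (algebraMap k D).injective
  have f2 : FaithfulSMul D D' :=
    (faithfulSMul_iff_algebraMap_injective D D').2 hg
  have ii : Algebra.IsIntegral D D' := ⟨fun x => hi x⟩
  have al : Algebra.IsAlgebraic D D' := inferInstance
  have h := trdeg_add_eq k D (A := D')
  rw [trdeg_eq_zero (R := D) (A := D'), add_zero] at h
  show Cardinal.toNat (Algebra.trdeg k D') = Cardinal.toNat (Algebra.trdeg k D)
  rw [h]

end LibMX2
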