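import Pool.Agent.LibMX2.Defs
import Pool.Agent.LibMX2.A1

/-! MX2 row A6 (MP_498328_ag). -/

namespace LibMX2

open AlgebraicGeometry CategoryTheory TopologicalSpace

private theorem a6_var {k : Type} [Field k] (n : ℕ) (g : MvPolynomial (Fin n) k)
    (hg : Prime g) : ∃ i, g.degreeOf i ≠ 0 := by
  by_contra hcon
  push Not at hcon
  have hv : g.vars = ∅ := by
    rw [Finset.eq_empty_iff_forall_notMem]
    intro i hi
    exact (MvPolynomial.mem_vars_iff_degreeOf_ne_zero.mp hi) (hcon i)
  rw [MvPolynomial.vars_eq_empty_iff_eq_C] at hv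
  by_cases h0 : g.coeff 0 = 0
  · apply hg.ne_zero
    rw [hv, h0, map_zero]
  · apply hg.not_isUnit
    rw [hv]
    exact (IsUnit.mk0 _ h0).map MvPolynomial.C

private theorem a6_inj {k : Type} [Field k] (n : ℕ) (g : MvPolynomial (Fin n) k) (i : Fin n)
    (hi : g.degreeOf i ≠ 0) (p : MvPolynomial {j : Fin n // j ≠ i} k)
    (hp : g ∣ MvPolynomial.rename Subtype.val p) : p = 0 := by
  classical
  by_contra hp0
  have hr : MvPolynomial.rename (Subtype.val : {j : Fin n // j ≠ i} → Fin n) p ≠ 0 := by
    intro h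
    exact hp0 (MvPolynomial.rename_injective _ Subtype.val_injective (by rw [h, map_zero]))
  obtain ⟨h, hh⟩ := hp
  have hh0 : h ≠ 0 := by
    rintro rfl
    exact hr (by rw [hh, mul_zero])
  have hg0 : g ≠ 0 := MvPolynomial.ne_zero_of_degreeOf_ne_zero hi
  have hd : (MvPolynomial.rename (Subtype.val : {j : Fin n // j ≠ i} → Fin n) p).degreeOf i
      ≠ 0 := by
    rw [hh, MvPolynomial.degreeOf_mul_eq hg0 hh0]
    omega
  rw [← MvPolynomial.mem_vars_iff_degreeOf_ne_zero] at hd
  obtain ⟨j, -, hj⟩ := MvPolynomial.mem_vars_rename _ _ hd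
  exact j.2 hj

private theorem a6_ft {k : Type} [Field k] (n : ℕ) (I : Ideal (MvPolynomial (Fin n) k)) :
    (quo (MvPolynomial.C : k →+* MvPolynomial (Fin n) k) I).FiniteType := by
  have h1 : (MvPolynomial.C : k →+* MvPolynomial (Fin n) k).FiniteType := by
    rw [← MvPolynomial.algebraMap_eq, RingHom.finiteType_algebraMap]
    infer_instance
  exact (RingHom.FiniteType.of_surjective _ Ideal.Quotient.mk_surjective).comp h1

theorem tr_hyper {k : Type} [Field k] (n : ℕ) (g : MvPolynomial (Fin n) k) (hg : Prime g) :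
    n ≤ tr (quo (MvPolynomial.C : k →+* MvPolynomial (Fin n) k) (Ideal.span {g})) + 1 := by
  classical
  obtain ⟨i, hi⟩ := a6_var n g hg
  have hP : (Ideal.span {g}).IsPrime := (Ideal.span_singleton_prime hg.ne_zero).mpr hg
  have hft := a6_ft n (Ideal.span {g})
  have hlt := trdeg_lt _ hft
  have hle : ((n - 1 : ℕ) : Cardinal) ≤ @Algebra.trdeg k
      (MvPolynomial (Fin n) k ⧸ Ideal.span {g}) _ _
      (quo (MvPolynomial.C : k →+* MvPolynomial (Fin n) k) (Ideal.span {g})).toAlgebra := by
    let _ : Algebra k (MvPolynomial (Fin n) k ⧸ Ideal.span {g}) :=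
      (quo (MvPolynomial.C : k →+* MvPolynomial (Fin n) k) (Ideal.span {g})).toAlgebra
    have hind : AlgebraicIndependent k (fun j : {j : Fin n // j ≠ i} =>
        Ideal.Quotient.mk (Ideal.span {g}) (MvPolynomial.X (j : Fin n))) := by
      rw [algebraicIndependent_iff]
      intro p hp
      apply a6_inj n g i hi p
      have hcomp : ((Ideal.Quotient.mk (Ideal.span {g})).comp
          (MvPolynomial.rename (R := k)
            (Subtype.val : {j : Fin n // j ≠ i} → Fin n)).toRingHom) =
          (MvPolynomial.aeval (R := k) (fun j : {j : Fin n // j ≠ i} =>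
            Ideal.Quotient.mk (Ideal.span {g}) (MvPolynomial.X (j : Fin n)))).toRingHom := by
        apply MvPolynomial.ringHom_ext
        · intro r
          have e1 : (MvPolynomial.aeval (R := k) (fun j : {j : Fin n // j ≠ i} =>
            Ideal.Quotient.mk (Ideal.span {g}) (MvPolynomial.X (j : Fin n))))
              (MvPolynomial.C r) = algebraMap k _ r := MvPolynomial.aeval_C _ r
          have e2 : algebraMap k (MvPolynomial (Fin n) k ⧸ Ideal.span {g}) r =
            Ideal.Quotient.mk (Ideal.span {g}) (MvPolynomial.C r) := rfl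
          simpa using (e1.trans e2).symm
        · intro j
          simp
      have h3 := RingHom.congr_fun hcomp p
      rw [← Ideal.mem_span_singleton, ← Ideal.Quotient.eq_zero_iff_mem]
      exact h3.trans hp
    have h4 := hind.cardinalMk_le_trdeg
    have h5 : Cardinal.mk {j : Fin n // j ≠ i} = ((n - 1 : ℕ) : Cardinal) := by
      rw [Cardinal.mk_fintype, Fintype.card_subtype_compl, Fintype.card_fin,
        Fintype.card_subtype_eq]
    rwa [h5] at h4
  have h6 := Cardinal.toNat_le_toNat hle hlt
  rw [Cardinal.toNat_natCast] at h6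
  change n - 1 ≤ tr (quo (MvPolynomial.C : k →+* MvPolynomial (Fin n) k) (Ideal.span {g})) at h6
  omega

end LibMX2
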