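import Pool.Agent.LibMX2.Defs

/-! MX2 row A7 (MP_498328_ag). -/

namespace LibMX2

open AlgebraicGeometry CategoryTheory TopologicalSpace

theorem ht_one {B : Type} [CommRing B] [IsDomain B] [UniqueFactorizationMonoid B]
    (P : Ideal B) [P.IsPrime] (hP : P ≠ ⊥) (h : ∀ Q : Ideal B, Q.IsPrime → Q < P → Q = ⊥) :
    ∃ g, Prime g ∧ P = Ideal.span {g} := by
  obtain ⟨g, hgP, hg⟩ := Ideal.IsPrime.exists_mem_prime_of_ne_bot (inferInstance : P.IsPrime) hP
  refine ⟨g, hg, ?_⟩
  by_contra hne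
  have hle : Ideal.span {g} ≤ P := (Ideal.span_singleton_le_iff_mem P).2 hgP
  have hlt : Ideal.span {g} < P := lt_of_le_of_ne hle fun e => hne e.symm
  have hpr : (Ideal.span {g}).IsPrime := (Ideal.span_singleton_prime hg.ne_zero).2 hg
  have h0 := h _ hpr hlt
  rw [Ideal.span_singleton_eq_bot] at h0
  exact hg.ne_zero h0

end LibMX2
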