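import Pool.Agent.LibMX2.Defs

/-! MX2 row A8 (MP_498328_ag). -/

namespace LibMX2

open AlgebraicGeometry CategoryTheory TopologicalSpace

theorem a8_height {S : Type} [CommRing S] [IsDomain S] [IsNoetherianRing S] (q : S) (P Q : Ideal S)
    (hP : P ∈ (Ideal.span {q}).minimalPrimes) [Q.IsPrime] (hQ : Q < P) : Q = ⊥ := by
  by_contra hne
  have hPp : P.IsPrime := hP.isPrime
  have h1 : P.height ≤ 1 := Ideal.height_le_one_of_isPrincipal_of_mem_minimalPrimes _ P hP
  have h2 : Q.height + 1 ≤ P.height := Ideal.height_add_one_le_of_lt_of_isPrime hQ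
  have : (⊥ : Ideal S).IsPrime := Ideal.isPrime_bot
  have h3 : (⊥ : Ideal S).height + 1 ≤ Q.height :=
    Ideal.height_add_one_le_of_lt_of_isPrime (bot_lt_iff_ne_bot.2 hne)
  have h4 : (⊥ : Ideal S).height + 1 + 1 ≤ 1 := (add_le_add_left h3 1).trans (h2.trans h1)
  have h5 : ((0 : ℕ∞) + 1 + 1) ≤ 1 :=
    (add_le_add_left (add_le_add_left (bot_le) 1) 1).trans h4
  exact absurd h5 (by decide)

theorem contract {B S : Type} [CommRing B] [IsDomain B] [IsIntegrallyClosed B] [CommRing S]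
    [IsDomain S] [IsNoetherianRing S] (g : B →+* S) (hg : Function.Injective g)
    (hi : g.IsIntegral) (q : S) (hq : q ≠ 0) (P : Ideal S)
    (hP : P ∈ (Ideal.span {q}).minimalPrimes) :
    P.comap g ≠ ⊥ ∧ ∀ Q : Ideal B, Q.IsPrime → Q < P.comap g → Q = ⊥ := by
  let : Algebra B S := g.toAlgebra
  have : Algebra.IsIntegral B S := ⟨hi⟩
  have : FaithfulSMul B S := (faithfulSMul_iff_algebraMap_injective B S).2 hg
  have hPp : P.IsPrime := hP.isPrime
  have hqP : q ∈ P := hP.1.2 (Ideal.subset_span rfl)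
  refine ⟨Ideal.comap_ne_bot_of_integral_mem hq hqP (hi q), ?_⟩
  intro Q hQp hQ
  have : (P.comap g).IsPrime := Ideal.comap_isPrime g P
  have : P.LiesOver (P.comap g) := ⟨rfl⟩
  obtain ⟨Q', hlt, hQ', hlo⟩ := Ideal.exists_ideal_lt_liesOver_of_lt P hQ
  have hb : Q' = ⊥ := a8_height q P Q' hP hlt
  have hov := hlo.over
  rw [hb] at hov
  rw [hov]
  exact (RingHom.injective_iff_ker_eq_bot g).1 hg

end LibMX2
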