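import Pool.Agent.LibMX2.Defs
import Pool.Agent.LibMX2.A2
import Pool.Agent.LibMX2.A3
import Pool.Agent.LibMX2.A6
import Pool.Agent.LibMX2.A7
import Pool.Agent.LibMX2.A8

/-! MX2 row A9 (MP_498328_ag). -/

namespace LibMX2

open AlgebraicGeometry CategoryTheory TopologicalSpace

private theorem a9_C (k : Type) [Field k] (n : ℕ) :
    tr (MvPolynomial.C : k →+* MvPolynomial (Fin n) k) ≤ n := by
  have h : (MvPolynomial.C : k →+* MvPolynomial (Fin n) k).toAlgebra =
      (inferInstance : Algebra k (MvPolynomial (Fin n) k)) :=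
    Algebra.algebra_ext _ _ (fun r => rfl)
  unfold tr
  rw [h, MvPolynomial.trdeg_of_isDomain]
  simp

theorem tr_drop {k S : Type} [Field k] [CommRing S] [IsDomain S] (f : k →+* S)
    (hf : f.FiniteType) (q : S) (P : Ideal S) (hP : P ∈ (Ideal.span {q}).minimalPrimes) :
    tr f ≤ tr (quo f P) + 1 := by
  have hPp : P.IsPrime := hP.1.1
  by_cases hq : q = 0
  · have hb : P = ⊥ := by
      have h0 : (⊥ : Ideal S) ∈ {J : Ideal S | J.IsPrime ∧ Ideal.span {q} ≤ J} := by
        refine ⟨Ideal.isPrime_bot, ?_⟩
        rw [hq]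
        simp
      exact le_antisymm (hP.2 h0 bot_le) bot_le
    have h := tr_equiv f (RingEquiv.quotientBot S).symm
    have h2 : (((RingEquiv.quotientBot S).symm : S →+* S ⧸ (⊥ : Ideal S))).comp f = quo f ⊥ := by
      ext x
      rfl
    rw [h2] at h
    rw [hb, h]
    omega
  · letI := f.toAlgebra
    have hft : Algebra.FiniteType k S := hf
    obtain ⟨n, g, hg, hi⟩ := exists_integral_inj_algHom_of_fg k S
    have hgi : (g : MvPolynomial (Fin n) k →+* S).IsIntegral := hi
    have hgj : Function.Injective (g : MvPolynomial (Fin n) k →+* S) := hg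
    have hfc : ((g : MvPolynomial (Fin n) k →+* S)).comp MvPolynomial.C = f := by
      ext x
      exact g.commutes x
    have h1 : tr f ≤ n := by
      rw [← hfc, tr_integral _ _ hgj hgi]
      exact a9_C k n
    have hno : IsNoetherianRing S := Algebra.FiniteType.isNoetherianRing k S
    obtain ⟨h2, h3⟩ := contract (g : MvPolynomial (Fin n) k →+* S) hgj hgi q hq P hP
    have hpp : (P.comap (g : MvPolynomial (Fin n) k →+* S)).IsPrime := Ideal.comap_isPrime _ _
    obtain ⟨h, hh, hpe⟩ := ht_one _ h2 h3
    have h4 := tr_hyper n h hh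
    rw [← hpe] at h4
    have hin : Function.Injective (Ideal.quotientMap P (g : MvPolynomial (Fin n) k →+* S)
        (le_refl (P.comap (g : MvPolynomial (Fin n) k →+* S)))) := Ideal.quotientMap_injective
    have hint : (Ideal.quotientMap P (g : MvPolynomial (Fin n) k →+* S)
        (le_refl (P.comap (g : MvPolynomial (Fin n) k →+* S)))).IsIntegral := hgi.quotient
    have h5 := tr_integral (quo (MvPolynomial.C : k →+* MvPolynomial (Fin n) k)
      (P.comap (g : MvPolynomial (Fin n) k →+* S))) _ hin hint
    have h6 : (Ideal.quotientMap P (g : MvPolynomial (Fin n) k →+* S)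
        (le_refl (P.comap (g : MvPolynomial (Fin n) k →+* S)))).comp
        (quo (MvPolynomial.C : k →+* MvPolynomial (Fin n) k)
          (P.comap (g : MvPolynomial (Fin n) k →+* S))) = quo f P := by
      rw [← hfc]
      ext x
      rfl
    rw [h6] at h5
    rw [h5]
    omega

end LibMX2
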