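import Pool.Agent.LibMX2.Defs
import Pool.Agent.LibMX2.A1
import Pool.Agent.LibMX2.A2
import Pool.Agent.LibMX2.A5
import Pool.Agent.LibMX2.A9

/-! MX2 row A12 (MP_498328_ag). -/

namespace LibMX2

open AlgebraicGeometry CategoryTheory TopologicalSpace

theorem a12_quo_ft {k S : Type} [Field k] [CommRing S] (f : k →+* S) (hf : f.FiniteType)
    (P : Ideal S) : (quo f P).FiniteType :=
  hf.comp_surjective Ideal.Quotient.mk_surjective

theorem a12_step {k S : Type} [Field k] [CommRing S] (f : k →+* S)
    (hf : f.FiniteType) (P Q : Ideal S) [P.IsPrime] [Q.IsPrime] (h : P < Q) :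
    tr (quo f Q) + 1 ≤ tr (quo f P) := by
  have hQ : (Q.map (Ideal.Quotient.mk P)).IsPrime :=
    Ideal.map_isPrime_of_surjective Ideal.Quotient.mk_surjective (by
      rw [Ideal.mk_ker]; exact h.le)
  have hne : Q.map (Ideal.Quotient.mk P) ≠ ⊥ := by
    intro h0
    have h1 := (Ideal.map_eq_bot_iff_le_ker _).mp h0
    rw [Ideal.mk_ker] at h1
    exact absurd h1 (not_le_of_gt h)
  have h1 := tr_strict (quo f P) (a12_quo_ft f hf P) (Q.map (Ideal.Quotient.mk P)) hne
  have h2 := tr_equiv (quo (quo f P) (Q.map (Ideal.Quotient.mk P)))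
    (DoubleQuot.quotQuotEquivQuotOfLE h.le)
  have h3 : ((DoubleQuot.quotQuotEquivQuotOfLE h.le :
      ((S ⧸ P) ⧸ Q.map (Ideal.Quotient.mk P)) →+* S ⧸ Q)).comp
      (quo (quo f P) (Q.map (Ideal.Quotient.mk P))) = quo f Q := by
    ext x
    exact DoubleQuot.quotQuotEquivQuotOfLE_quotQuotMk (f x) h.le
  rw [h3] at h2
  rw [h2]
  exact h1

theorem a12_bot {k S : Type} [Field k] [CommRing S] (f : k →+* S) :
    tr (quo f (⊥ : Ideal S)) = tr f := by
  have h2 := tr_equiv f (RingEquiv.quotientBot S).symm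
  have h3 : (((RingEquiv.quotientBot S).symm : S →+* S ⧸ (⊥ : Ideal S))).comp f =
      quo f (⊥ : Ideal S) := by
    ext x
    rfl
  rw [h3] at h2
  exact h2

theorem a12_le {k S : Type} [Field k] [CommRing S] [IsDomain S] (f : k →+* S)
    (hf : f.FiniteType) (P : Ideal S) [P.IsPrime] : tr (quo f P) ≤ tr f := by
  by_cases hP : P = ⊥
  · subst hP
    exact (a12_bot f).le
  · exact (Nat.le_succ _).trans (tr_strict f hf P hP)

theorem a12_series {k S : Type} [Field k] [CommRing S] (f : k →+* S)
    (hf : f.FiniteType) (p : LTSeries (PrimeSpectrum S)) :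
    ∀ i : Fin (p.length + 1), (i : ℕ) + tr (quo f (p i).asIdeal) ≤
      tr (quo f (p 0).asIdeal) := by
  intro i
  induction i using Fin.induction with
  | zero => simp
  | succ i ih =>
    have hlt : (p i.castSucc).asIdeal < (p i.succ).asIdeal := p.step i
    have h1 := a12_step f hf _ _ hlt
    have h2 : ((i.succ : Fin (p.length + 1)) : ℕ) = (i.castSucc : ℕ) + 1 := by simp
    rw [h2]
    omega

theorem a12_dim_le {k S : Type} [Field k] [CommRing S] [IsDomain S] (f : k →+* S)
    (hf : f.FiniteType) : ringKrullDim S ≤ (tr f : WithBot ℕ∞) := by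
  unfold ringKrullDim Order.krullDim
  refine iSup_le fun p => ?_
  have h1 := a12_series f hf p (Fin.last _)
  have h2 := a12_le f hf (p 0).asIdeal
  have h3 : p.length ≤ tr f := by
    simp only [Fin.val_last] at h1
    omega
  exact_mod_cast h3

theorem a12_not_field {k S : Type} [Field k] [CommRing S] [IsDomain S] (f : k →+* S)
    (hf : f.FiniteType) (h : 0 < tr f) : ¬ IsField S := by
  intro hS
  let : Field S := hS.toField
  let : Algebra k S := f.toAlgebra
  have : Algebra.FiniteType k S := hf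
  have : Module.Finite k S := finite_of_finite_type_of_isJacobsonRing k S
  have : Algebra.IsAlgebraic k S := Algebra.IsAlgebraic.of_finite k S
  have h0 : Algebra.trdeg k S = 0 := trdeg_eq_zero
  have h1 : tr f = 0 := by
    unfold tr
    have h2 : @Algebra.trdeg k S _ _ f.toAlgebra = 0 := h0
    rw [h2]
    simp
  omega

theorem a12_dim_ge {k : Type} [Field k] (n : ℕ) : ∀ (S : Type) [CommRing S] [IsDomain S]
    (f : k →+* S), f.FiniteType → tr f = n → (n : WithBot ℕ∞) ≤ ringKrullDim S := by
  induction n with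
  | zero =>
    intro S _ _ f hf hn
    exact_mod_cast ringKrullDim_nonneg_of_nontrivial
  | succ m ih =>
    intro S _ _ f hf hn
    have hnf := a12_not_field f hf (by omega)
    obtain ⟨q, hq0, hqu⟩ := Ring.exists_not_isUnit_of_not_isField hnf
    obtain ⟨M, hM, hqM⟩ := exists_max_ideal_of_mem_nonunits hqu
    have := hM.isPrime
    obtain ⟨P, hP, hPM⟩ := Ideal.exists_minimalPrimes_le
      ((Ideal.span_singleton_le_iff_mem M).mpr hqM)
    have : P.IsPrime := hP.1.1
    have hqP : q ∈ P := (Ideal.span_singleton_le_iff_mem P).mp hP.1.2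
    have hPb : P ≠ ⊥ := by
      intro h0
      rw [h0] at hqP
      exact hq0 (Ideal.mem_bot.mp hqP)
    have h1 := tr_drop f hf q P hP
    have h2 := tr_strict f hf P hPb
    have h3 := ih (S ⧸ P) (quo f P) (a12_quo_ft f hf P) (by omega)
    have h4 := ringKrullDim_succ_le_of_surjective (Ideal.Quotient.mk P)
      Ideal.Quotient.mk_surjective (mem_nonZeroDivisors_of_ne_zero hq0)
      (Ideal.Quotient.eq_zero_iff_mem.mpr hqP)
    refine le_trans ?_ h4
    push_cast
    gcongr

theorem dim_eq {k S : Type} [Field k] [CommRing S] [IsDomain S] (f : k →+* S)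
    (hf : f.FiniteType) : ringKrullDim S = (tr f : WithBot ℕ∞) := by
  exact le_antisymm (a12_dim_le f hf) (a12_dim_ge _ S f hf rfl)

end LibMX2
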