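import Pool.Agent.LibMX2.Defs

/-! MX2 row S1 (MP_498328_ag). -/

namespace LibMX2

open AlgebraicGeometry CategoryTheory TopologicalSpace

theorem kmap_ft {k : Type} [Field k] {X : Scheme.{0}} (s : X ⟶ Spec (.of k))
    [LocallyOfFiniteType s] (U : X.Opens) (hU : IsAffineOpen U) : (kmap s U).FiniteType := by
  have h1 : (s.appLE ⊤ U le_top).hom.FiniteType :=
    s.finiteType_appLE (isAffineOpen_top _) hU le_top
  have h2 : ((Scheme.ΓSpecIso (.of k)).inv.hom).FiniteType := by
    apply RingHom.FiniteType.of_surjective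
    exact (ConcreteCategory.bijective_of_isIso (Scheme.ΓSpecIso (.of k)).inv).surjective
  have h3 := h1.comp h2
  simpa [kmap] using h3

end LibMX2
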