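import Pool.Agent.LibMX2.Defs
import Pool.Agent.LibMX2.A12
import Pool.Agent.LibMX2.S1

/-! MX2 row S3 (MP_498328_ag). -/

namespace LibMX2

open AlgebraicGeometry CategoryTheory TopologicalSpace

theorem tr_le_closure {k : Type} [Field k] {X : Scheme.{0}} (s : X ⟶ Spec (.of k))
    [LocallyOfFiniteType s] (U : X.Opens) (hU : IsAffineOpen U) (P : PrimeSpectrum Γ(X, U)) :
    (tr (quo (kmap s U) P.asIdeal) : WithBot ℕ∞) ≤
      topologicalKrullDim (closure {hU.fromSpec P} : Set X) := by
  haveI : P.asIdeal.IsPrime := P.isPrime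
  have hft : (quo (kmap s U) P.asIdeal).FiniteType :=
    (RingHom.FiniteType.of_surjective _ Ideal.Quotient.mk_surjective).comp (kmap_ft s U hU)
  rw [← dim_eq _ hft, ← PrimeSpectrum.topologicalKrullDim_eq_ringKrullDim]
  let c : PrimeSpectrum (Γ(X, U) ⧸ P.asIdeal) → PrimeSpectrum Γ(X, U) :=
    PrimeSpectrum.comap (Ideal.Quotient.mk P.asIdeal)
  have hc : Topology.IsClosedEmbedding c :=
    PrimeSpectrum.isClosedEmbedding_comap_of_surjective _ _ Ideal.Quotient.mk_surjective
  let e : PrimeSpectrum Γ(X, U) → X := fun x => hU.fromSpec x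
  have he : Topology.IsOpenEmbedding e := hU.fromSpec.isOpenEmbedding
  have hind : Topology.IsInducing (e ∘ c) := he.isInducing.comp hc.isInducing
  have hmem : ∀ x, (e ∘ c) x ∈ (closure {hU.fromSpec P} : Set X) := by
    intro x
    have h1 : P ≤ c x := by
      change P.asIdeal ≤ Ideal.comap (Ideal.Quotient.mk P.asIdeal) x.asIdeal
      intro a ha
      rw [Ideal.mem_comap, Ideal.Quotient.eq_zero_iff_mem.mpr ha]
      exact x.asIdeal.zero_mem
    have h2 : c x ∈ closure ({P} : Set (PrimeSpectrum Γ(X, U))) := by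
      rw [PrimeSpectrum.closure_singleton, PrimeSpectrum.mem_zeroLocus]
      exact h1
    have h3 := image_closure_subset_closure_image he.continuous (Set.mem_image_of_mem e h2)
    rw [Set.image_singleton] at h3
    exact h3
  exact (hind.codRestrict hmem).topologicalKrullDim_le

end LibMX2
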