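import Pool.Agent.LibMX2.Defs
import Pool.Agent.LibMX2.A2
import Pool.Agent.LibMX2.A9

/-! MX2 row A10 (MP_498328_ag). -/

namespace LibMX2

open AlgebraicGeometry CategoryTheory TopologicalSpace

theorem a10_tr_quot {k R : Type} [Field k] [CommRing R] (f : k →+* R)
    (w w₁ : Ideal R) (h : w ≤ w₁) :
    tr (quo (quo f w) (w₁.map (Ideal.Quotient.mk w))) = tr (quo f w₁) := by
  rw [← tr_equiv (quo (quo f w) (w₁.map (Ideal.Quotient.mk w)))
    (DoubleQuot.quotQuotEquivQuotOfLE h)]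
  congr 1

theorem tr_between {k R : Type} [Field k] [CommRing R] (f : k →+* R) (hf : f.FiniteType)
    (w x : Ideal R) [w.IsPrime] [x.IsPrime] (hwx : w ≤ x) (a : R) (hax : a ∈ x) :
    ∃ w₁ : Ideal R, w₁.IsPrime ∧ w ≤ w₁ ∧ w₁ ≤ x ∧ a ∈ w₁ ∧ tr (quo f w) ≤ tr (quo f w₁) + 1 := by
  have hsurj : Function.Surjective (Ideal.Quotient.mk w) := Ideal.Quotient.mk_surjective
  have hxb : (x.map (Ideal.Quotient.mk w)).IsPrime := by
    apply Ideal.map_isPrime_of_surjective hsurj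
    rw [Ideal.mk_ker]
    exact hwx
  have hle : Ideal.span {Ideal.Quotient.mk w a} ≤ x.map (Ideal.Quotient.mk w) := by
    rw [Ideal.span_singleton_le_iff_mem]
    exact Ideal.mem_map_of_mem _ hax
  obtain ⟨Pb, hPb, hPbx⟩ := Ideal.exists_minimalPrimes_le hle
  have hPbp : Pb.IsPrime := hPb.1.1
  have hmap : (Pb.comap (Ideal.Quotient.mk w)).map (Ideal.Quotient.mk w) = Pb :=
    Ideal.map_comap_of_surjective _ hsurj Pb
  have hw : w ≤ Pb.comap (Ideal.Quotient.mk w) := by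
    intro r hr
    rw [Ideal.mem_comap, Ideal.Quotient.eq_zero_iff_mem.mpr hr]
    exact Pb.zero_mem
  refine ⟨Pb.comap (Ideal.Quotient.mk w), inferInstance, hw, ?_, ?_, ?_⟩
  · intro r hr
    have h1 : Ideal.Quotient.mk w r ∈ x.map (Ideal.Quotient.mk w) := hPbx hr
    rw [Ideal.mem_map_iff_of_surjective _ hsurj] at h1
    obtain ⟨s, hs, hsr⟩ := h1
    have h2 : s - r ∈ w := Ideal.Quotient.eq.mp hsr
    have h3 := x.sub_mem hs (hwx h2)
    simpa using h3
  · rw [Ideal.mem_comap]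
    exact hPb.1.2 (Ideal.mem_span_singleton_self _)
  · have hft : (quo f w).FiniteType :=
      (RingHom.FiniteType.of_surjective _ hsurj).comp hf
    have h9 := tr_drop (quo f w) hft (Ideal.Quotient.mk w a) Pb hPb
    have h10 := a10_tr_quot f w (Pb.comap (Ideal.Quotient.mk w)) hw
    rw [hmap] at h10
    rw [← h10]
    exact h9

end LibMX2
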