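import Pool.Agent.LibMX2.Defs

/-! MX2 row A18 (MP_498328_ag). -/

namespace LibMX2

open AlgebraicGeometry CategoryTheory TopologicalSpace

theorem jac {k A : Type} [Field k] [CommRing A] (fA : k →+* A) (hA : fA.FiniteType)
    (v z : Ideal A) [v.IsPrime] [z.IsMaximal] (hvz : v < z) :
    ∃ n : Ideal A, n.IsMaximal ∧ v ≤ n ∧ ∃ a ∈ n, a ∉ z := by
  let _ : Algebra k A := fA.toAlgebra
  have _ : Algebra.FiniteType k A := hA
  have _ : IsJacobsonRing A := isJacobsonRing_of_finiteType (A := k)
  have hv : v.IsPrime := inferInstance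
  have hj : v.jacobson = v := IsJacobsonRing.out inferInstance hv.isRadical
  by_contra hcon
  push Not at hcon
  have h1 : z ≤ v := by
    rw [← hj]
    refine le_sInf fun n hn => ?_
    obtain ⟨hvn, hnm⟩ := hn
    have h2 : n ≤ z := fun a ha => hcon n hnm hvn a ha
    rw [hnm.eq_of_le (Ideal.IsMaximal.ne_top inferInstance) h2]
  exact absurd (lt_of_lt_of_le hvz h1) (lt_irrefl v)

end LibMX2
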