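import Pool.Agent.LibMX2.Defs
import Pool.Agent.LibMX2.A2
import Pool.Agent.LibMX2.A10

/-! MX2 row A11 (MP_498328_ag). -/

namespace LibMX2

open AlgebraicGeometry CategoryTheory TopologicalSpace

private theorem a11_aux {k S : Type} [Field k] [CommRing S] [IsDomain S] (f : k →+* S)
    (hf : f.FiniteType) (P : Ideal S) [P.IsPrime] (T : Finset S) :
    (∀ t ∈ T, t ∈ P) → ∃ w : Ideal S, w.IsPrime ∧ (∀ t ∈ T, t ∈ w) ∧ w ≤ P ∧
      tr f ≤ tr (quo f w) + T.card := by
  classical
  refine Finset.induction_on T ?_ ?_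
  · intro _
    refine ⟨⊥, Ideal.isPrime_bot, by simp, bot_le, ?_⟩
    have h := tr_equiv f (RingEquiv.quotientBot S).symm
    have h2 : (((RingEquiv.quotientBot S).symm : S →+* S ⧸ (⊥ : Ideal S))).comp f = quo f ⊥ := by
      ext x
      rfl
    rw [h2] at h
    rw [h]
    simp
  · intro a T' haT ih hT
    obtain ⟨w, hw, hTw, hwP, hle⟩ := ih (fun t ht => hT t (Finset.mem_insert_of_mem ht))
    have := hw
    obtain ⟨w₁, hw₁, h1, h2, h3, h4⟩ := tr_between f hf w P hwP a (hT a (Finset.mem_insert_self _ _))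
    refine ⟨w₁, hw₁, ?_, h2, ?_⟩
    · intro t ht
      rcases Finset.mem_insert.1 ht with rfl | ht
      · exact h3
      · exact h1 (hTw t ht)
    · rw [Finset.card_insert_of_notMem haT]
      omega

theorem tr_drops {k S : Type} [Field k] [CommRing S] [IsDomain S] (f : k →+* S)
    (hf : f.FiniteType) (T : Finset S) (P : Ideal S)
    (hP : P ∈ (Ideal.span (T : Set S)).minimalPrimes) : tr f ≤ tr (quo f P) + T.card := by
  have hPp : P.IsPrime := hP.1.1
  have := hPp
  obtain ⟨w, hw, hTw, hwP, hle⟩ := a11_aux f hf P T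
    (fun t ht => hP.1.2 (Ideal.subset_span (Finset.mem_coe.2 ht)))
  have hspan : Ideal.span (T : Set S) ≤ w := Ideal.span_le.2 (fun t ht => hTw t (Finset.mem_coe.1 ht))
  have hPw : P ≤ w := hP.2 ⟨hw, hspan⟩ hwP
  have hEq : w = P := le_antisymm hwP hPw
  rw [hEq] at hle
  exact hle

end LibMX2
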