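import Pool.Agent.LibMX2.Defs
import Pool.Agent.LibMX2.A3
import Pool.Agent.LibMX2.A11

namespace LibMX2

open AlgebraicGeometry CategoryTheory TopologicalSpace

lemma a17_trC {k : Type} [Field k] (n : ℕ) :
    tr (MvPolynomial.C : k →+* MvPolynomial (Fin n) k) = n := by
  unfold tr
  have e : (MvPolynomial.C : k →+* MvPolynomial (Fin n) k).toAlgebra =
      (inferInstance : Algebra k (MvPolynomial (Fin n) k)) :=
    Algebra.algebra_ext _ _ (fun r => rfl)
  rw [e, MvPolynomial.trdeg_of_isDomain]
  simp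

lemma a17_max {k : Type} [Field k] (n : ℕ) (J : Ideal (MvPolynomial (Fin n) k)) (hJ : J ≠ ⊤)
    (c : Fin n → k) (h : ∀ i, MvPolynomial.X i - MvPolynomial.C (c i) ∈ J) : J.IsMaximal := by
  let e : MvPolynomial (Fin n) k →+* k := MvPolynomial.eval c
  have hs : Function.Surjective e := fun a => ⟨MvPolynomial.C a, by simp [e]⟩
  have hm : (RingHom.ker e).IsMaximal := RingHom.ker_isMaximal_of_surjective e hs
  have hle : RingHom.ker e ≤ J := by
    intro p hp
    have e2 : (Ideal.Quotient.mk J) = ((Ideal.Quotient.mk J).comp MvPolynomial.C).comp e := by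
      apply MvPolynomial.ringHom_ext
      · intro r
        simp [e]
      · intro i
        simp only [RingHom.comp_apply, e, MvPolynomial.eval_X]
        rw [Ideal.Quotient.eq]
        exact h i
    have e3 : (Ideal.Quotient.mk J) p = 0 := by
      rw [e2, RingHom.comp_apply, (RingHom.mem_ker).1 hp, map_zero]
    exact Ideal.Quotient.eq_zero_iff_mem.1 e3
  rw [← hm.eq_of_le hJ hle]
  exact hm

lemma a17_const {k R : Type} [Field k] [IsAlgClosed k] [CommRing R] (f : k →+* R)
    (hf : f.FiniteType) (M : Ideal R) [M.IsMaximal] (x : R) : ∃ c : k, x - f c ∈ M := by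
  let : Field (R ⧸ M) := Ideal.Quotient.field M
  let : Algebra k (R ⧸ M) := ((Ideal.Quotient.mk M).comp f).toAlgebra
  have h1 : ((Ideal.Quotient.mk M).comp f).FiniteType :=
    hf.comp_surjective Ideal.Quotient.mk_surjective
  have : Algebra.FiniteType k (R ⧸ M) := h1
  have : Module.Finite k (R ⧸ M) := finite_of_finite_type_of_isJacobsonRing k (R ⧸ M)
  have : Algebra.IsIntegral k (R ⧸ M) := inferInstance
  obtain ⟨c, hc⟩ := (IsAlgClosed.algebraMap_bijective_of_isIntegral (k := k)
    (K := R ⧸ M)).2 (Ideal.Quotient.mk M x)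
  refine ⟨c, ?_⟩
  rw [← Ideal.Quotient.eq]
  exact hc.symm

theorem fib {k A R : Type} [Field k] [IsAlgClosed k] [CommRing A] [CommRing R] [IsDomain R]
    (fA : k →+* A) (hA : fA.FiniteType) (φ : A →+* R) (hR : (φ.comp fA).FiniteType)
    (M : Ideal R) [M.IsMaximal] :
    ∃ w : Ideal R, w.IsPrime ∧ w ≤ M ∧ w.comap φ = M.comap φ ∧
      tr (φ.comp fA) ≤ tr (quo (φ.comp fA) w) + tr (quo fA (RingHom.ker φ)) := by
  have hker : (RingHom.ker φ).IsPrime := RingHom.ker_isPrime φ
  let φ' : A ⧸ RingHom.ker φ →+* R := RingHom.kerLift φ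
  have hφ' : Function.Injective φ' := RingHom.kerLift_injective φ
  have hcomp : φ'.comp (Ideal.Quotient.mk (RingHom.ker φ)) = φ := by
    ext a
    exact RingHom.kerLift_mk φ a
  let : Algebra k (A ⧸ RingHom.ker φ) := (quo fA (RingHom.ker φ)).toAlgebra
  have hft : (quo fA (RingHom.ker φ)).FiniteType :=
    hA.comp_surjective Ideal.Quotient.mk_surjective
  have : Algebra.FiniteType k (A ⧸ RingHom.ker φ) := hft
  obtain ⟨n, g, hg, hgi⟩ := exists_integral_inj_algHom_of_fg k (A ⧸ RingHom.ker φ)
  have htr : tr (quo fA (RingHom.ker φ)) = n := by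
    rw [← a17_trC (k := k) n, ← tr_integral (MvPolynomial.C : k →+* MvPolynomial (Fin n) k)
      (g : MvPolynomial (Fin n) k →+* A ⧸ RingHom.ker φ) hg hgi]
    congr 1
    ext c
    exact (g.commutes c).symm
  have hg' : ∀ c : k, g (MvPolynomial.C c) = Ideal.Quotient.mk _ (fA c) := fun c => g.commutes c
  choose c hc using fun i : Fin n => a17_const (φ.comp fA) hR M (φ' (g (MvPolynomial.X i)))
  classical
  let T : Finset R := Finset.univ.image
    fun i : Fin n => φ' (g (MvPolynomial.X i)) - (φ.comp fA) (c i)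
  have hT : Ideal.span (T : Set R) ≤ M := by
    rw [Ideal.span_le]
    intro x hx
    obtain ⟨i, -, rfl⟩ := Finset.mem_image.1 (Finset.mem_coe.1 hx)
    exact hc i
  have hTc : T.card ≤ n := Finset.card_image_le.trans (by simp)
  have hMp : M.IsPrime := Ideal.IsMaximal.isPrime ‹_›
  obtain ⟨w, hw, hwM⟩ := Ideal.exists_minimalPrimes_le hT
  have hwp : w.IsPrime := hw.1.1
  refine ⟨w, hwp, hwM, ?_, ?_⟩
  · have h1 : (w.comap φ') = M.comap φ' := by
      have hmax : (w.comap φ').IsMaximal := by
        refine Ideal.isMaximal_of_isIntegral_of_isMaximal_comap'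
          (g : MvPolynomial (Fin n) k →+* A ⧸ RingHom.ker φ) hgi _ ?_
        refine a17_max n _ (Ideal.IsPrime.ne_top inferInstance) c fun i => ?_
        rw [Ideal.mem_comap, Ideal.mem_comap]
        have h2 : φ' ((g : MvPolynomial (Fin n) k →+* A ⧸ RingHom.ker φ)
            (MvPolynomial.X i - MvPolynomial.C (c i))) =
            φ' (g (MvPolynomial.X i)) - (φ.comp fA) (c i) := by
          rw [map_sub, map_sub]
          congr 1
          show φ' (g (MvPolynomial.C (c i))) = _
          rw [hg']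
          exact RingHom.kerLift_mk φ _
        rw [h2]
        exact hw.1.2 (Ideal.subset_span (Finset.mem_coe.2
          (Finset.mem_image_of_mem _ (Finset.mem_univ i))))
      exact hmax.eq_of_le (Ideal.IsPrime.ne_top inferInstance) (Ideal.comap_mono hwM)
    rw [← hcomp, ← Ideal.comap_comap, ← Ideal.comap_comap, h1]
  · rw [htr]
    exact (tr_drops (φ.comp fA) hR T w hw).trans (by omega)

end LibMX2
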