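import Pool.Agent.LibMX2.Defs

/-! MX2 row S2 (MP_498328_ag). -/

namespace LibMX2

open AlgebraicGeometry CategoryTheory TopologicalSpace

theorem kmap_comp {k : Type} [Field k] {X Z : Scheme.{0}} (sX : X ⟶ Spec (.of k))
    (sZ : Z ⟶ Spec (.of k)) (g : X ⟶ Z) (hg : g ≫ sZ = sX) (W : Z.Opens) (U : X.Opens)
    (e : U ≤ g ⁻¹ᵁ W) : (g.appLE W U e).hom.comp (kmap sZ W) = kmap sX U := by
  subst hg
  have h : ((Scheme.ΓSpecIso (.of k)).inv ≫ sZ.appLE ⊤ W le_top) ≫ g.appLE W U e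
      = (Scheme.ΓSpecIso (.of k)).inv ≫ (g ≫ sZ).appLE ⊤ U le_top := by
    rw [Category.assoc, Scheme.Hom.appLE_comp_appLE]
  have h2 := congrArg CommRingCat.Hom.hom h
  rw [CommRingCat.hom_comp] at h2
  exact h2

end LibMX2
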