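import Pool.Agent.LibMX2.Defs

/-! MX2 row A4 (MP_498328_ag). -/

namespace LibMX2

open AlgebraicGeometry CategoryTheory TopologicalSpace

theorem tr_frac {k D K : Type} [Field k] [CommRing D] [IsDomain D] [Field K] (f : k →+* D)
    (ι : D →+* K) (hι : Function.Injective ι) (hK : ∀ x : K, ∃ s t, ι t ≠ 0 ∧ x * ι t = ι s) :
    tr (ι.comp f) = tr f := by
  let a1 : Algebra k D := f.toAlgebra
  let a2 : Algebra D K := ι.toAlgebra
  let a3 : Algebra k K := (ι.comp f).toAlgebra
  have st : IsScalarTower k D K := IsScalarTower.of_algebraMap_eq (fun _ => rfl)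
  have f1 : FaithfulSMul k D := (faithfulSMul_iff_algebraMap_injective k D).mpr f.injective
  have f2 : FaithfulSMul D K := (faithfulSMul_iff_algebraMap_injective D K).mpr hι
  have alg : Algebra.IsAlgebraic D K := by
    refine ⟨fun x => ?_⟩
    obtain ⟨s, t, ht, hx⟩ := hK x
    refine ⟨Polynomial.C t * Polynomial.X - Polynomial.C s, ?_, ?_⟩
    · intro h0
      have h1 := congrArg (fun q => Polynomial.coeff q 1) h0
      simp at h1
      exact ht (by rw [h1, map_zero])
    · simp only [map_sub, map_mul, Polynomial.aeval_C, Polynomial.aeval_X]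
      change ι t * x - ι s = 0
      rw [← hx]; ring
  have h1 := _root_.trdeg_add_eq (R := k) (S := D) (A := K)
  rw [_root_.trdeg_eq_zero (R := D) (A := K), add_zero] at h1
  unfold tr
  exact congrArg Cardinal.toNat h1.symm

end LibMX2
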