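import Pool.Agent.LibMX2.Defs
import Pool.Agent.LibMX2.A4
import Pool.Agent.LibMX2.A12
import Pool.Agent.LibMX2.S1
import Pool.Agent.LibMX2.S2

/-! MX2 row S4 (MP_498328_ag). -/

namespace LibMX2

open AlgebraicGeometry CategoryTheory TopologicalSpace

theorem s4_germ {k : Type} [Field k] {X : Scheme.{0}} [IsIntegral X] (s : X ⟶ Spec (.of k))
    (U : X.Opens) [Nonempty U] :
    (res X U).comp (kmap s U) = ((Scheme.ΓSpecIso (.of k)).inv ≫ s.app ⊤ ≫
      X.presheaf.germ (s ⁻¹ᵁ ⊤) (genericPoint X) trivial).hom := by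
  have h : ((Scheme.ΓSpecIso (.of k)).inv ≫ s.appLE ⊤ U le_top) ≫ X.germToFunctionField U =
      (Scheme.ΓSpecIso (.of k)).inv ≫ s.app ⊤ ≫
        X.presheaf.germ (s ⁻¹ᵁ ⊤) (genericPoint X) trivial := by
    rw [Scheme.Hom.appLE, Category.assoc, Category.assoc]
    congr 2
    exact X.presheaf.germ_res _ _ _
  rw [← h]
  rfl

theorem s4_tr {k : Type} [Field k] {X : Scheme.{0}} [IsIntegral X] (s : X ⟶ Spec (.of k))
    (U : X.Opens) (hU : IsAffineOpen U) [Nonempty U] :
    tr (kmap s U) = tr (((Scheme.ΓSpecIso (.of k)).inv ≫ s.app ⊤ ≫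
      X.presheaf.germ (s ⁻¹ᵁ ⊤) (genericPoint X) trivial).hom : k →+* X.functionField) := by
  haveI := functionField_isFractionRing_of_isAffineOpen X U hU
  have h := tr_frac (kmap s U) (res X U) (X.germToFunctionField_injective U) (by
    intro x
    obtain ⟨a, b, hb, hab⟩ := IsFractionRing.div_surjective (A := Γ(X, U)) x
    refine ⟨a, b, ?_, ?_⟩
    · have h1 : algebraMap Γ(X, U) X.functionField b ≠ 0 :=
        IsFractionRing.to_map_ne_zero_of_mem_nonZeroDivisors hb
      exact h1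
    · have h1 : algebraMap Γ(X, U) X.functionField b ≠ 0 :=
        IsFractionRing.to_map_ne_zero_of_mem_nonZeroDivisors hb
      have h2 : x * algebraMap Γ(X, U) X.functionField b = algebraMap Γ(X, U) X.functionField a := by
        rw [← hab, div_mul_cancel₀ _ h1]
      exact h2)
  rw [← h, s4_germ]

theorem dim_le {k : Type} [Field k] {X : Scheme.{0}} [IsIntegral X] (s : X ⟶ Spec (.of k))
    [LocallyOfFiniteType s] (U : X.Opens) (hU : IsAffineOpen U) [Nonempty U] :
    topologicalKrullDim X ≤ (tr (kmap s U) : WithBot ℕ∞) := by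
  unfold topologicalKrullDim Order.krullDim
  refine iSup_le fun p => ?_
  obtain ⟨x, hx⟩ := p.head.isIrreducible.nonempty
  obtain ⟨V, hV, hxV, -⟩ := exists_isAffineOpen_mem_and_subset (X := X) (x := x) (U := ⊤) trivial
  haveI : Nonempty V := ⟨⟨x, hxV⟩⟩
  -- the trace of the first member
  have hemb : Topology.IsOpenEmbedding (Subtype.val : V → X) := V.isOpen.isOpenEmbedding_subtypeVal
  obtain ⟨Z, hZ⟩ : ∃ Z : IrreducibleCloseds V,
      IrreducibleCloseds.map Subtype.val hemb.continuous Z = p.head := by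
    refine ⟨(IrreducibleCloseds.orderIsoOfIsOpenEmbedding _ hemb).symm ⟨p.head, ⟨⟨x, hxV⟩, hx⟩⟩, ?_⟩
    have h1 := (IrreducibleCloseds.orderIsoOfIsOpenEmbedding _ hemb).apply_symm_apply
      ⟨p.head, ⟨⟨x, hxV⟩, hx⟩⟩
    exact congrArg Subtype.val h1
  have h1 : (p.length : ℕ∞) ≤ Order.coheight Z := by
    have h0 := hemb.coheight_map Z
    have h0' : (p.length : ℕ∞) ≤ Order.coheight p.head := Order.length_le_coheight_head
    rw [← hZ] at h0'
    exact h0'.trans_eq h0
  have h2 : ((p.length : ℕ∞) : WithBot ℕ∞) ≤ topologicalKrullDim V :=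
    (WithBot.coe_le_coe.2 h1).trans (Order.coheight_le_krullDim Z)
  have h3 : topologicalKrullDim V = ringKrullDim Γ(X, V) := by
    rw [← PrimeSpectrum.topologicalKrullDim_eq_ringKrullDim Γ(X, V)]
    exact IsHomeomorph.topologicalKrullDim_eq _ hV.isoSpec.hom.homeomorph.isHomeomorph
  have h4 : ringKrullDim Γ(X, V) = (tr (kmap s V) : WithBot ℕ∞) := dim_eq _ (kmap_ft s V hV)
  have h5 : tr (kmap s V) = tr (kmap s U) := by rw [s4_tr s V hV, s4_tr s U hU]
  rw [h3, h4, h5] at h2
  exact h2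

end LibMX2
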