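import Pool.Agent.LibMX2.Defs
import Pool.Agent.LibMX2.A17
import Pool.Agent.LibMX2.S1
import Pool.Agent.LibMX2.S2
import Pool.Agent.LibMX2.S3
import Pool.Agent.LibMX2.S4

/-! MX2 row S10 (MP_498328_ag). -/

namespace LibMX2

open AlgebraicGeometry CategoryTheory TopologicalSpace

theorem s10_maximal {X : Scheme.{0}} (U : X.Opens) (hU : IsAffineOpen U)
    (p : PrimeSpectrum Γ(X, U)) (hp : IsClosed {hU.fromSpec p}) : p.asIdeal.IsMaximal := by
  rw [← PrimeSpectrum.isClosed_singleton_iff_isMaximal]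
  have h1 : IsClosed (hU.fromSpec ⁻¹' {hU.fromSpec p}) := hp.preimage hU.fromSpec.continuous
  have h2 : (hU.fromSpec ⁻¹' {hU.fromSpec p} : Set (Spec Γ(X, U))) = {p} := by
    ext q
    constructor
    · intro hq
      exact hU.fromSpec.isOpenEmbedding.injective hq
    · intro hq
      rw [Set.mem_singleton_iff.1 hq]
      exact rfl
  rw [h2] at h1
  exact h1

theorem s10_app {X Z : Scheme.{0}} (g : X ⟶ Z) (W : Z.Opens) (U : X.Opens)
    (hW : IsAffineOpen W) (hU : IsAffineOpen U) (e : U ≤ g ⁻¹ᵁ W) (q : PrimeSpectrum Γ(X, U)) :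
    g (hU.fromSpec q) = hW.fromSpec (PrimeSpectrum.comap (g.appLE W U e).hom q) := by
  have h := IsAffineOpen.SpecMap_appLE_fromSpec g hW hU e
  have h2 := congrArg (fun f => f q) h
  exact h2.symm

theorem fibre {k : Type} [Field k] [IsAlgClosed k] (X Z : Scheme.{0}) [IsIntegral X]
    (sX : X ⟶ Spec (.of k)) (sZ : Z ⟶ Spec (.of k)) [LocallyOfFiniteType sX]
    [LocallyOfFiniteType sZ] (g : X ⟶ Z) (hg : g ≫ sZ = sX) (r : ℕ)
    (hdim : topologicalKrullDim Z + r < topologicalKrullDim X) (x : X) (hx : IsClosed {x}) :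
    ∃ (U : X.Opens) (hU : IsAffineOpen U) (w : PrimeSpectrum Γ(X, U)),
      hU.fromSpec w ⤳ x ∧ g (hU.fromSpec w) = g x ∧ r + 1 ≤ tr (quo (kmap sX U) w.asIdeal) := by
  obtain ⟨W, hW, hxW, -⟩ := exists_isAffineOpen_mem_and_subset (x := g x) (U := ⊤) trivial
  obtain ⟨U, hU, hxU, hUW⟩ := exists_isAffineOpen_mem_and_subset (x := x) (U := g ⁻¹ᵁ W) hxW
  have e : U ≤ g ⁻¹ᵁ W := hUW
  have hne : Nonempty U := ⟨⟨x, hxU⟩⟩
  have hr : x ∈ Set.range hU.fromSpec := by rw [hU.range_fromSpec]; exact hxU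
  obtain ⟨p, hp⟩ := hr
  have hM : (show PrimeSpectrum Γ(X, U) from p).asIdeal.IsMaximal :=
    s10_maximal U hU p (by rw [hp]; exact hx)
  have hdom : IsDomain Γ(X, U) := inferInstance
  have hc : (g.appLE W U e).hom.comp (kmap sZ W) = kmap sX U := kmap_comp sX sZ g hg W U e
  have hft : ((g.appLE W U e).hom.comp (kmap sZ W)).FiniteType := by
    rw [hc]; exact kmap_ft sX U hU
  obtain ⟨w, hwp, hwle, hwc, hwt⟩ := fib (kmap sZ W) (kmap_ft sZ W hW) (g.appLE W U e).hom hft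
    (show PrimeSpectrum Γ(X, U) from p).asIdeal
  rw [hc] at hwt
  refine ⟨U, hU, ⟨w, hwp⟩, ?_, ?_, ?_⟩
  · rw [← hp]
    exact ((PrimeSpectrum.le_iff_specializes ⟨w, hwp⟩ p).1 hwle).map hU.fromSpec.continuous
  · rw [← hp]
    have hq : PrimeSpectrum.comap (g.appLE W U e).hom ⟨w, hwp⟩ =
        PrimeSpectrum.comap (g.appLE W U e).hom p := PrimeSpectrum.ext hwc
    exact (s10_app g W U hW hU e ⟨w, hwp⟩).trans
      ((congrArg (fun t => hW.fromSpec t) hq).trans (s10_app g W U hW hU e p).symm)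
  · have hk : (RingHom.ker (g.appLE W U e).hom).IsPrime := RingHom.ker_isPrime _
    have h1 := tr_le_closure sZ W hW ⟨RingHom.ker (g.appLE W U e).hom, hk⟩
    have h2 := h1.trans (topologicalKrullDim_subspace_le _ _)
    have h3 := dim_le sX U hU
    have h4 : ((tr (quo (kmap sZ W) (RingHom.ker (g.appLE W U e).hom)) : ℕ) : WithBot ℕ∞) + r <
        ((tr (kmap sX U) : ℕ) : WithBot ℕ∞) :=
      lt_of_le_of_lt (add_le_add_left h2 _) (lt_of_lt_of_le hdim h3)
    have h5 : tr (quo (kmap sZ W) (RingHom.ker (g.appLE W U e).hom)) + r < tr (kmap sX U) := by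
      exact_mod_cast h4
    show r + 1 ≤ tr (quo (kmap sX U) w)
    omega

end LibMX2
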