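import Pool.Agent.LibMX2.Defs
import Pool.Agent.LibMX2.A4

namespace LibMX2

open AlgebraicGeometry CategoryTheory TopologicalSpace

theorem s14_germ {k : Type} [Field k] {X : Scheme.{0}} (s : X ⟶ Spec (.of k))
    (U : X.Opens) (w : X) (hw : w ∈ U) :
    (X.presheaf.germ U w hw ≫ X.residue w).hom.comp (kmap s U) =
      ((Scheme.ΓSpecIso (.of k)).inv ≫ s.app ⊤ ≫
      X.presheaf.germ (s ⁻¹ᵁ ⊤) w trivial ≫ X.residue w).hom := by
  have h : ((Scheme.ΓSpecIso (.of k)).inv ≫ s.appLE ⊤ U le_top) ≫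
      X.presheaf.germ U w hw ≫ X.residue w =
      (Scheme.ΓSpecIso (.of k)).inv ≫ s.app ⊤ ≫
        X.presheaf.germ (s ⁻¹ᵁ ⊤) w trivial ≫ X.residue w := by
    have h1 : s.appLE ⊤ U le_top ≫ X.presheaf.germ U w hw =
        s.app ⊤ ≫ X.presheaf.germ (s ⁻¹ᵁ ⊤) w trivial := by
      unfold Scheme.Hom.appLE
      rw [Category.assoc]
      congr 1
      exact X.presheaf.germ_res _ _ _
    rw [Category.assoc, ← Category.assoc (s.appLE ⊤ U le_top), h1, Category.assoc]
  rw [← h]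
  rfl

theorem s14_tr {k : Type} [Field k] {X : Scheme.{0}} (s : X ⟶ Spec (.of k))
    (U : X.Opens) (hU : IsAffineOpen U) (w : X) (hw : w ∈ U) :
    tr (quo (kmap s U) (hU.primeIdealOf ⟨w, hw⟩).asIdeal) =
      tr (((Scheme.ΓSpecIso (.of k)).inv ≫ s.app ⊤ ≫
      X.presheaf.germ (s ⁻¹ᵁ ⊤) w trivial ≫ X.residue w).hom : k →+* X.residueField w) := by
  let _ := TopCat.Presheaf.algebra_section_stalk X.presheaf (⟨w, hw⟩ : U)
  have hloc := hU.isLocalization_stalk ⟨w, hw⟩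
  set P := (hU.primeIdealOf ⟨w, hw⟩).asIdeal with hP
  let ev : Γ(X, U) →+* X.residueField w := (X.presheaf.germ U w hw ≫ X.residue w).hom
  have hev : ∀ a, ev a = (X.residue w).hom ((X.presheaf.germ U w hw).hom a) := fun a => rfl
  -- an element lies in P iff its germ is in the maximal ideal
  have hmem : ∀ a : Γ(X, U), a ∈ P ↔ ev a = 0 := by
    intro a
    have h1 : (X.presheaf.germ U w hw).hom a ∈ IsLocalRing.maximalIdeal (X.presheaf.stalk w) ↔
        a ∈ P := IsLocalization.AtPrime.to_map_mem_maximal_iff (X.presheaf.stalk w) P a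
    rw [← h1, hev]
    exact (IsLocalRing.residue_eq_zero_iff _).symm
  let ι : (Γ(X, U) ⧸ P) →+* X.residueField w := Ideal.Quotient.lift P ev (fun a ha => (hmem a).1 ha)
  have hι : Function.Injective ι := by
    rw [injective_iff_map_eq_zero]
    intro x hx
    obtain ⟨a, rfl⟩ := Ideal.Quotient.mk_surjective x
    rw [Ideal.Quotient.lift_mk] at hx
    exact Ideal.Quotient.eq_zero_iff_mem.2 ((hmem a).2 hx)
  have h := tr_frac (quo (kmap s U) P) ι hι (by
    intro x
    obtain ⟨o, rfl⟩ := X.residue_surjective w x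
    obtain ⟨⟨a, b⟩, hab⟩ := IsLocalization.surj (M := P.primeCompl) (S := X.presheaf.stalk w) o
    refine ⟨Ideal.Quotient.mk P a, Ideal.Quotient.mk P b, ?_, ?_⟩
    · rw [Ideal.Quotient.lift_mk]
      intro h0
      exact b.2 ((hmem b).2 h0)
    · rw [Ideal.Quotient.lift_mk, Ideal.Quotient.lift_mk, hev, hev]
      have := congrArg (X.residue w).hom hab
      rw [map_mul] at this
      exact this)
  rw [← h, ← s14_germ s U w hw]
  rfl

theorem tr_indep {k : Type} [Field k] {X : Scheme.{0}} (s : X ⟶ Spec (.of k))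
    (U U₁ : X.Opens) (hU : IsAffineOpen U) (hU₁ : IsAffineOpen U₁) (w : X) (hw : w ∈ U)
    (hw₁ : w ∈ U₁) : tr (quo (kmap s U) (hU.primeIdealOf ⟨w, hw⟩).asIdeal) =
      tr (quo (kmap s U₁) (hU₁.primeIdealOf ⟨w, hw₁⟩).asIdeal) := by
  rw [s14_tr s U hU w hw, s14_tr s U₁ hU₁ w hw₁]

end LibMX2
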