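import Pool.Agent.LibMX2.Defs
import Pool.Agent.LibMX2.A10
import Pool.Agent.LibMX2.A18
import Pool.Agent.LibMX2.S1
import Pool.Agent.LibMX2.S3
import Pool.Agent.LibMX2.S10
import Pool.Agent.LibMX2.S14

namespace LibMX2

open AlgebraicGeometry CategoryTheory TopologicalSpace

lemma s11_inj {X : Scheme.{0}} {U : X.Opens} (hU : IsAffineOpen U) :
    Function.Injective hU.fromSpec :=
  (Scheme.Hom.isOpenEmbedding hU.fromSpec).injective

lemma s11_le {X : Scheme.{0}} {U : X.Opens} (hU : IsAffineOpen U) (P Q : PrimeSpectrum Γ(X, U)) :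
    hU.fromSpec P ⤳ hU.fromSpec Q ↔ P ≤ Q := by
  rw [PrimeSpectrum.le_iff_specializes]
  exact (Scheme.Hom.isOpenEmbedding hU.fromSpec).isInducing.specializes_iff

lemma s11_ex {X : Scheme.{0}} {U : X.Opens} (hU : IsAffineOpen U) (x : X) (hx : x ∈ U) :
    ∃ P : PrimeSpectrum Γ(X, U), hU.fromSpec P = x := ⟨_, hU.fromSpec_primeIdealOf ⟨x, hx⟩⟩

lemma s11_mem {X : Scheme.{0}} {U : X.Opens} (hU : IsAffineOpen U) (P : PrimeSpectrum Γ(X, U)) :
    hU.fromSpec P ∈ U := by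
  have h : hU.fromSpec P ∈ Set.range hU.fromSpec := ⟨P, rfl⟩
  rw [hU.range_fromSpec] at h
  exact h

lemma s11_basic {X : Scheme.{0}} {U : X.Opens} (hU : IsAffineOpen U) (P : PrimeSpectrum Γ(X, U))
    (a : Γ(X, U)) : hU.fromSpec P ∈ X.basicOpen a ↔ a ∉ P.asIdeal := by
  have h := hU.fromSpec_preimage_basicOpen a
  have h2 : P ∈ hU.fromSpec ⁻¹ᵁ X.basicOpen a ↔ P ∈ PrimeSpectrum.basicOpen a := by
    rw [h]
    exact Iff.rfl
  exact h2

lemma s11_max {X : Scheme.{0}} {U : X.Opens} (hU : IsAffineOpen U) (P : PrimeSpectrum Γ(X, U))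
    (h : IsClosed {hU.fromSpec P}) : P.asIdeal.IsMaximal := by
  rw [← PrimeSpectrum.isClosed_singleton_iff_isMaximal]
  have h1 : hU.fromSpec ⁻¹' {hU.fromSpec P} = {P} := by
    ext Q
    constructor
    · intro hQ
      exact s11_inj hU hQ
    · rintro rfl
      rfl
  have h2 := h.preimage (Scheme.Hom.continuous hU.fromSpec)
  rw [h1] at h2
  exact h2

theorem uniq_pt {k : Type} [Field k] [IsAlgClosed k] (X Z : Scheme.{0}) [IsIntegral X]
    (sX : X ⟶ Spec (.of k)) (sZ : Z ⟶ Spec (.of k)) [IsProper sX] [IsSeparated sZ]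
    [LocallyOfFiniteType sZ] (r : ℕ)
    (hdim : topologicalKrullDim Z + r < topologicalKrullDim X) (Y : Set X)
    (hY : ∀ w : X, (r : WithBot ℕ∞) ≤ topologicalKrullDim (closure {w} : Set X) →
      (closure {w} ∩ Y).Nonempty) (g₁ g₂ : X ⟶ Z) (h₁ : g₁ ≫ sZ = sX) (h₂ : g₂ ≫ sZ = sX)
    (hg : ∀ y ∈ Y, g₁ y = g₂ y) (x : X) (hx : IsClosed {x}) : g₁ x = g₂ x := by
  have hp₁ : IsProper g₁ := by
    have : IsProper (g₁ ≫ sZ) := by rw [h₁]; infer_instance
    exact IsProper.of_comp g₁ sZ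
  have hp₂ : IsProper g₂ := by
    have : IsProper (g₂ ≫ sZ) := by rw [h₂]; infer_instance
    exact IsProper.of_comp g₂ sZ
  have hz : IsClosed {g₁ x} := by
    have := g₁.isClosedMap _ hx
    rwa [Set.image_singleton] at this
  obtain ⟨U, hU, w, hwx, hwz, htr⟩ := fibre X Z sX sZ g₁ h₁ r hdim x hx
  -- points of `Y` in closures
  have key : ∀ y : X, hU.fromSpec w ⤳ y → y ∈ Y → g₂ y = g₁ x := by
    intro y hy hyY
    have h3 : g₁ (hU.fromSpec w) ⤳ g₁ y := hy.map g₁.continuous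
    rw [hwz] at h3
    have h4 : g₁ y ∈ closure {g₁ x} := specializes_iff_mem_closure.1 h3
    rw [hz.closure_eq] at h4
    rw [← hg y hyY]
    exact h4
  -- the claim
  have claim : g₂ (hU.fromSpec w) = g₁ x := by
    by_contra hne
    obtain ⟨y, hy1, hy2⟩ := hY (hU.fromSpec w) (le_trans (by exact_mod_cast by omega)
      (tr_le_closure sX U hU w))
    have hvz : g₂ (hU.fromSpec w) ⤳ g₁ x := by
      have h5 : g₂ (hU.fromSpec w) ⤳ g₂ y :=
        (specializes_iff_mem_closure.2 hy1).map g₂.continuous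
      rwa [key y (specializes_iff_mem_closure.2 hy1) hy2] at h5
    obtain ⟨W, hW₁, hzW, -⟩ := Opens.isBasis_iff_nbhd.mp Z.isBasis_affineOpens
      (show g₁ x ∈ (⊤ : Z.Opens) from trivial)
    have hW : IsAffineOpen W := hW₁
    have hvW : g₂ (hU.fromSpec w) ∈ W := hvz.mem_open W.isOpen hzW
    obtain ⟨Pz, hPz⟩ := s11_ex hW _ hzW
    obtain ⟨Pv, hPv⟩ := s11_ex hW _ hvW
    have hle : Pv ≤ Pz := by
      rw [← s11_le hW, hPz, hPv]
      exact hvz
    have hPne : Pv ≠ Pz := by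
      rintro rfl
      exact hne (hPv.symm.trans hPz)
    have hmax : Pz.asIdeal.IsMaximal := s11_max hW Pz (by rw [hPz]; exact hz)
    have hlt : Pv.asIdeal < Pz.asIdeal := lt_of_le_of_ne hle
      (fun e => hPne (PrimeSpectrum.ext e))
    obtain ⟨n, hn, hvn, a, han, haz⟩ := jac (kmap sZ W) (kmap_ft sZ W hW) _ _ hlt
    have hnp : n.IsPrime := hn.isPrime
    let Pn : PrimeSpectrum Γ(Z, W) := ⟨n, hnp⟩
    have hvv' : g₂ (hU.fromSpec w) ⤳ hW.fromSpec Pn := by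
      rw [← hPv, s11_le hW]
      exact hvn
    -- `v' = g₂ x₁`
    obtain ⟨x₁, hx₁, hx₁'⟩ : hW.fromSpec Pn ∈ g₂ '' closure {hU.fromSpec w} := by
      have hc := g₂.isClosedMap _ (isClosed_closure (s := {hU.fromSpec w}))
      have h6 : g₂ (hU.fromSpec w) ∈ g₂ '' closure {hU.fromSpec w} :=
        ⟨_, subset_closure rfl, rfl⟩
      exact hvv'.mem_closed hc h6
    have hsp : hU.fromSpec w ⤳ x₁ := specializes_iff_mem_closure.2 hx₁
    have hx₁W : x₁ ∈ g₂ ⁻¹ᵁ W := by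
      show g₂ x₁ ∈ W
      rw [hx₁']
      exact s11_mem hW Pn
    obtain ⟨U₁, hU₁', hx₁U, hU₁W⟩ := Opens.isBasis_iff_nbhd.mp X.isBasis_affineOpens hx₁W
    have hU₁ : IsAffineOpen U₁ := hU₁'
    have hwU₁ : hU.fromSpec w ∈ U₁ := hsp.mem_open U₁.isOpen hx₁U
    have hwU : hU.fromSpec w ∈ U := s11_mem hU w
    have hwe : hU.primeIdealOf ⟨hU.fromSpec w, hwU⟩ = w :=
      s11_inj hU (hU.fromSpec_primeIdealOf ⟨_, hwU⟩)
    have htr2 := tr_indep sX U U₁ hU hU₁ (hU.fromSpec w) hwU hwU₁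
    rw [hwe] at htr2
    rw [htr2] at htr
    have hPw := hU₁.fromSpec_primeIdealOf ⟨hU.fromSpec w, hwU₁⟩
    generalize hU₁.primeIdealOf ⟨hU.fromSpec w, hwU₁⟩ = Pw at *
    change hU₁.fromSpec Pw = hU.fromSpec w at hPw
    obtain ⟨Px, hPx⟩ := s11_ex hU₁ _ hx₁U
    have hwx1 : Pw ≤ Px := by
      rw [← s11_le hU₁, hPw, hPx]
      exact hsp
    -- the function `a` on `X`
    let b : Γ(X, U₁) := g₂.appLE W U₁ hU₁W a
    have hb : ∀ P : PrimeSpectrum Γ(X, U₁),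
        b ∉ P.asIdeal ↔ g₂ (hU₁.fromSpec P) ∈ Z.basicOpen a := by
      intro P
      rw [← s11_basic hU₁]
      have h7 : X.basicOpen b = U₁ ⊓ g₂ ⁻¹ᵁ Z.basicOpen a := Scheme.basicOpen_appLE g₂ U₁ W hU₁W a
      rw [h7]
      constructor
      · intro h8
        exact h8.2
      · intro h8
        exact ⟨s11_mem hU₁ P, h8⟩
    have hbx : b ∈ Px.asIdeal := by
      by_contra h9
      rw [hb, hPx, hx₁', s11_basic hW] at h9
      exact h9 han
    obtain ⟨w₁, hw₁p, hww₁, -, hbw₁, htr3⟩ := tr_between (kmap sX U₁) (kmap_ft sX U₁ hU₁)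
      Pw.asIdeal Px.asIdeal hwx1 b hbx
    let Pw₁ : PrimeSpectrum Γ(X, U₁) := ⟨w₁, hw₁p⟩
    have hsp1 : hU.fromSpec w ⤳ hU₁.fromSpec Pw₁ := by
      rw [← hPw, s11_le hU₁]
      exact hww₁
    have hrt : r ≤ tr (quo (kmap sX U₁) Pw₁.asIdeal) := by
      show r ≤ tr (quo (kmap sX U₁) w₁)
      omega
    obtain ⟨y', hy1', hy2'⟩ := hY (hU₁.fromSpec Pw₁) (le_trans (by exact_mod_cast hrt)
      (tr_le_closure sX U₁ hU₁ Pw₁))
    have hsy : hU₁.fromSpec Pw₁ ⤳ y' := specializes_iff_mem_closure.2 hy1'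
    have hz' : g₂ (hU₁.fromSpec Pw₁) ⤳ g₁ x := by
      have h10 : g₂ (hU₁.fromSpec Pw₁) ⤳ g₂ y' := hsy.map g₂.continuous
      rwa [key y' (hsp1.trans hsy) hy2'] at h10
    have hza : g₁ x ∈ Z.basicOpen a := by
      rw [← hPz, s11_basic hW]
      exact haz
    have h11 : g₂ (hU₁.fromSpec Pw₁) ∈ Z.basicOpen a := hz'.mem_open (Z.basicOpen a).isOpen hza
    rw [← hb] at h11
    exact h11 hbw₁
  have h12 : g₂ (hU.fromSpec w) ⤳ g₂ x := hwx.map g₂.continuous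
  rw [claim] at h12
  have h13 : g₂ x ∈ closure {g₁ x} := specializes_iff_mem_closure.1 h12
  rw [hz.closure_eq] at h13
  exact h13.symm

end LibMX2
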