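import Pool.Agent.LibMX2.Defs
import Pool.Agent.LibMX2.S3
import Pool.Agent.LibMX2.S10

/-! MX2 row S12 (MP_498328_ag). -/

namespace LibMX2

open AlgebraicGeometry CategoryTheory TopologicalSpace

theorem image_eq {k : Type} [Field k] [IsAlgClosed k] (X Z : Scheme.{0}) [IsIntegral X]
    (sX : X ⟶ Spec (.of k)) (sZ : Z ⟶ Spec (.of k)) [IsProper sX] [IsSeparated sZ]
    [LocallyOfFiniteType sZ] (r : ℕ)
    (hdim : topologicalKrullDim Z + r < topologicalKrullDim X) (Y : Set X) (hYc : IsClosed Y)
    (hY : ∀ w : X, (r : WithBot ℕ∞) ≤ topologicalKrullDim (closure {w} : Set X) →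
      (closure {w} ∩ Y).Nonempty) (g : X ⟶ Z) (hg : g ≫ sZ = sX) : Set.range g = g '' Y := by
  have hcomp : IsProper (g ≫ sZ) := by rw [hg]; infer_instance
  have hgp : IsProper g := IsProper.of_comp g sZ
  have hcl : IsClosedMap g := g.isClosedMap
  have hjs : JacobsonSpace (Spec (CommRingCat.of k)) := inferInstance
  have hJ : JacobsonSpace X := LocallyOfFiniteType.jacobsonSpace sX
  have key : ∀ x : X, IsClosed ({x} : Set X) → x ∈ g ⁻¹' (g '' Y) := by
    intro x hx
    obtain ⟨U, hU, w, hwx, hgw, htr⟩ := fibre X Z sX sZ g hg r hdim x hx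
    have h1 := tr_le_closure sX U hU w
    have h2 : (r : WithBot ℕ∞) ≤ topologicalKrullDim (closure {hU.fromSpec w} : Set X) := by
      refine le_trans ?_ h1
      have : r ≤ tr (quo (kmap sX U) w.asIdeal) := by omega
      exact_mod_cast this
    obtain ⟨y, hy1, hy2⟩ := hY _ h2
    refine ⟨y, hy2, ?_⟩
    have hgx : IsClosed ({g x} : Set Z) := by
      have := hcl _ hx
      rwa [Set.image_singleton] at this
    have h3 : g y ∈ closure ({g (hU.fromSpec w)} : Set Z) := by
      have h4 := (specializes_iff_mem_closure.mpr hy1).map g.continuous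
      exact specializes_iff_mem_closure.mp h4
    rw [hgw, hgx.closure_eq] at h3
    exact h3
  have hclosed : IsClosed (g ⁻¹' (g '' Y)) := (hcl _ hYc).preimage g.continuous
  have huniv : g ⁻¹' (g '' Y) = Set.univ := by
    have h5 : closure (closedPoints X) ⊆ g ⁻¹' (g '' Y) :=
      closure_minimal (fun x hx => key x hx) hclosed
    rw [closure_closedPoints] at h5
    exact Set.univ_subset_iff.mp h5
  apply Set.Subset.antisymm
  · rintro _ ⟨x, rfl⟩
    have : x ∈ g ⁻¹' (g '' Y) := by rw [huniv]; trivial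
    exact this
  · rintro _ ⟨y, _, rfl⟩
    exact ⟨y, rfl⟩

end LibMX2
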