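import Pool.Agent.LibMX2.Defs

/-! MX2 row S9 (MP_498328_ag). -/

namespace LibMX2

open AlgebraicGeometry CategoryTheory TopologicalSpace

/-- the restriction of a rational map to `Spec O_{X,w}` restricts to its generic value -/
theorem s9_spec (X Z : Scheme.{0}) [IsIntegral X] (F : X.PartialMap Z) {w : X}
    (hw : w ∈ F.domain) : locgen X w ≫ F.fromSpecStalkOfMem hw = F.fromFunctionField := by
  have hg : genericPoint X ∈ F.domain :=
    ((genericPoint_specializes _).mem_open F.domain.2 F.dense_domain.nonempty.choose_spec)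
  have key : locgen X w ≫ F.domain.fromSpecStalkOfMem w hw =
      F.domain.fromSpecStalkOfMem (genericPoint X) hg := by
    rw [← cancel_mono F.domain.ι, Category.assoc, Scheme.Opens.fromSpecStalkOfMem_ι,
      Scheme.Opens.fromSpecStalkOfMem_ι]
    exact Scheme.SpecMap_stalkSpecializes_fromSpecStalk _
  change locgen X w ≫ F.domain.fromSpecStalkOfMem w hw ≫ F.hom =
    F.domain.fromSpecStalkOfMem (genericPoint X) hg ≫ F.hom
  rw [← Category.assoc, key]

/-- a rational map over `k` is over `k` on its local rings -/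
theorem s9_over {k : Type} [Field k] (X Z : Scheme.{0}) [IsIntegral X]
    (sX : X ⟶ Spec (.of k)) (sZ : Z ⟶ Spec (.of k)) (F : X.PartialMap Z)
    (hF : F.hom ≫ sZ = F.domain.ι ≫ sX) {w : X} (hw : w ∈ F.domain) :
    F.fromSpecStalkOfMem hw ≫ sZ = X.fromSpecStalk w ≫ sX := by
  change (F.domain.fromSpecStalkOfMem w hw ≫ F.hom) ≫ sZ = _
  rw [Category.assoc, hF, ← Category.assoc, Scheme.Opens.fromSpecStalkOfMem_ι]

instance s9_dom (X : Scheme.{0}) [IsIntegral X] (w : X) : IsDominant (locgen X w) := by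
  constructor
  have hinj : Function.Injective
      (X.presheaf.stalkSpecializes ((genericPoint_spec X).specializes trivial :
        genericPoint X ⤳ w)).hom :=
    IsFractionRing.injective (X.presheaf.stalk w) X.functionField
  have h := (PrimeSpectrum.denseRange_comap_iff_ker_le_nilRadical
    (X.presheaf.stalkSpecializes ((genericPoint_spec X).specializes trivial :
        genericPoint X ⤳ w)).hom).2 (by
      rw [(RingHom.injective_iff_ker_eq_bot _).1 hinj]
      exact bot_le)
  exact h

theorem ext_glob {k : Type} [Field k] (X Z : Scheme.{0}) [IsIntegral X] (sX : X ⟶ Spec (.of k))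
    (sZ : Z ⟶ Spec (.of k)) [LocallyOfFiniteType sX] [IsSeparated sZ] [LocallyOfFiniteType sZ]
    (U : X.Opens) (hU : (U : Set X).Nonempty) (f : U.toScheme ⟶ Z) (hf : f ≫ sZ = U.ι ≫ sX) :
    ∃ ζ : Spec X.functionField ⟶ Z, ζ ≫ sZ = gen X ≫ sX ∧ (∀ w ∈ U, Ext X Z ζ w) ∧
      ((∀ x, Ext X Z ζ x) → ∃ g : X ⟶ Z, g ≫ sZ = sX ∧ U.ι ≫ g = f) := by
  have hZ : Z.IsSeparated := by
    rw [Scheme.isSeparated_iff]
    have : Limits.terminal.from Z = sZ ≫ Limits.terminal.from (Spec (.of k)) :=
      Limits.terminal.hom_ext _ _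
    rw [this]
    infer_instance
  set F : X.PartialMap Z := ⟨U, U.2.dense hU, f⟩ with hFdef
  refine ⟨F.fromFunctionField, s9_over X Z sX sZ F hf _, fun w hw => ⟨_, s9_spec X Z F hw⟩, ?_⟩
  intro hE
  have hdom : F.toRationalMap.domain = ⊤ := by
    rw [eq_top_iff]
    intro x _
    obtain ⟨θ, hθ⟩ := hE x
    have hθk : θ ≫ sZ = X.fromSpecStalk x ≫ sX := by
      have : locgen X x ≫ (θ ≫ sZ) = locgen X x ≫ X.fromSpecStalk x ≫ sX := by
        rw [← Category.assoc, hθ, s9_over X Z sX sZ F hf _, ← Category.assoc,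
          Scheme.SpecMap_stalkSpecializes_fromSpecStalk]
      exact ext_of_isDominant (locgen X x) this
    rw [Scheme.RationalMap.mem_domain]
    refine ⟨Scheme.PartialMap.ofFromSpecStalk sX sZ θ hθk,
      Scheme.PartialMap.mem_domain_ofFromSpecStalk sX sZ θ hθk, ?_⟩
    apply Scheme.RationalMap.eq_of_fromFunctionField_eq
    rw [Scheme.RationalMap.fromFunctionField_toRationalMap,
      Scheme.RationalMap.fromFunctionField_toRationalMap, ← hθ,
      ← s9_spec X Z _ (Scheme.PartialMap.mem_domain_ofFromSpecStalk sX sZ θ hθk),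
      Scheme.PartialMap.fromSpecStalkOfMem_ofFromSpecStalk]
  set G := F.toRationalMap.toPartialMap with hG
  have hGd : G.domain = ⊤ := hdom
  have hle : U ≤ G.domain := by rw [hGd]; exact le_top
  have hres : X.homOfLE hle ≫ G.hom = f := F.toPartialMap_toRationalMap_restrict
  let g : X ⟶ Z := X.topIso.inv ≫ X.homOfLE hGd.ge ≫ G.hom
  have hg : U.ι ≫ g = f := by
    rw [← hres]
    simp only [g, ← Category.assoc]
    congr 1
    rw [← cancel_mono G.domain.ι]
    simp
  refine ⟨g, ?_, hg⟩
  have hdm : IsDominant U.ι := Opens.isDominant_ι (U.2.dense hU)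
  apply ext_of_isDominant U.ι
  rw [← Category.assoc, hg, hf]

end LibMX2
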