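import Pool.Agent.LibMX2.Defs
import Pool.Agent.LibMX2.A1

namespace LibMX2

open AlgebraicGeometry CategoryTheory TopologicalSpace

theorem a13_side {k A D : Type} [Field k] [CommRing A] [CommRing D] [IsDomain D] [Algebra k D]
    (f : k →+* A) (g : A →+* D) (hgf : g.comp f = algebraMap k D) :
    ∃ s : Set D, Cardinal.mk s ≤ @Algebra.trdeg k (A ⧸ RingHom.ker g) _ _
      (quo f (RingHom.ker g)).toAlgebra ∧
      ∀ a : A, IsAlgebraic (Algebra.adjoin k s) (g a) := by
  letI : Algebra k (A ⧸ RingHom.ker g) := (quo f (RingHom.ker g)).toAlgebra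
  have hpr : (RingHom.ker g).IsPrime := RingHom.ker_isPrime g
  haveI : IsDomain (A ⧸ RingHom.ker g) := Ideal.Quotient.isDomain _
  let φ : (A ⧸ RingHom.ker g) →ₐ[k] D :=
    { RingHom.kerLift g with
      commutes' := fun c => by
        have := RingHom.congr_fun hgf c
        exact this }
  have hφ : Function.Injective φ := RingHom.kerLift_injective g
  obtain ⟨B, hB⟩ := exists_isTranscendenceBasis k (A ⧸ RingHom.ker g)
  refine ⟨φ '' B, ?_, fun a => ?_⟩
  · rw [← hB.cardinalMk_eq_trdeg]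
    exact Cardinal.mk_image_le
  · have h1 : Algebra.IsAlgebraic (Algebra.adjoin k B) (A ⧸ RingHom.ker g) := by
      have := hB.isAlgebraic
      rwa [Subtype.range_coe] at this
    have h2 : IsAlgebraic (Algebra.adjoin k B) (Ideal.Quotient.mk (RingHom.ker g) a) :=
      h1.isAlgebraic _
    have hmem : ∀ x : Algebra.adjoin k B, φ x ∈ Algebra.adjoin k (φ '' B) := by
      intro x
      rw [← AlgHom.map_adjoin]
      exact ⟨x, x.2, rfl⟩
    let ψ : Algebra.adjoin k B →+* Algebra.adjoin k (φ '' B) :=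
      RingHom.codRestrict ((φ : (A ⧸ RingHom.ker g) →+* D).comp
        (Algebra.adjoin k B).val.toRingHom) _ hmem
    have hψ : Function.Injective ψ := by
      intro x y hxy
      have := congrArg Subtype.val hxy
      exact Subtype.ext (hφ this)
    have h3 := h2.ringHom_of_comp_eq ψ (φ : (A ⧸ RingHom.ker g) →+* D) hψ (by ext x; rfl)
    exact h3

theorem tr_comp {k A₁ A₂ D : Type} [Field k] [CommRing A₁] [CommRing A₂] [CommRing D] [IsDomain D]
    (f₁ : k →+* A₁) (f₂ : k →+* A₂) (hf₁ : f₁.FiniteType) (hf₂ : f₂.FiniteType)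
    (g₁ : A₁ →+* D) (g₂ : A₂ →+* D) (hg : g₁.comp f₁ = g₂.comp f₂)
    (hD : Subring.closure (Set.range g₁ ∪ Set.range g₂) = ⊤) :
    tr (g₁.comp f₁) ≤ tr (quo f₁ (RingHom.ker g₁)) + tr (quo f₂ (RingHom.ker g₂)) := by
  letI : Algebra k D := (g₁.comp f₁).toAlgebra
  obtain ⟨s₁, hs₁, ha₁⟩ := a13_side f₁ g₁ rfl
  obtain ⟨s₂, hs₂, ha₂⟩ := a13_side f₂ g₂ hg.symm
  have hp1 : (RingHom.ker g₁).IsPrime := RingHom.ker_isPrime g₁
  have hp2 : (RingHom.ker g₂).IsPrime := RingHom.ker_isPrime g₂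
  haveI : IsDomain (A₁ ⧸ RingHom.ker g₁) := Ideal.Quotient.isDomain _
  haveI : IsDomain (A₂ ⧸ RingHom.ker g₂) := Ideal.Quotient.isDomain _
  have hq1 : (quo f₁ (RingHom.ker g₁)).FiniteType :=
    hf₁.comp_surjective Ideal.Quotient.mk_surjective
  have hq2 : (quo f₂ (RingHom.ker g₂)).FiniteType :=
    hf₂.comp_surjective Ideal.Quotient.mk_surjective
  have hfin1 := trdeg_lt (quo f₁ (RingHom.ker g₁)) hq1
  have hfin2 := trdeg_lt (quo f₂ (RingHom.ker g₂)) hq2
  have halg : Algebra.IsAlgebraic (Algebra.adjoin k (s₁ ∪ s₂)) D := by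
    have hmono : ∀ (t : Set D), t ⊆ s₁ ∪ s₂ → ∀ d : D, IsAlgebraic (Algebra.adjoin k t) d →
        IsAlgebraic (Algebra.adjoin k (s₁ ∪ s₂)) d := by
      intro t ht d hd
      have hle := Algebra.adjoin_mono (R := k) ht
      exact hd.ringHom_of_comp_eq (Subalgebra.inclusion hle : _ →+* _) (RingHom.id D)
        (Subalgebra.inclusion_injective hle) (by ext x; rfl)
    have hall : (⊤ : Subring D) ≤
        (Subalgebra.algebraicClosure (Algebra.adjoin k (s₁ ∪ s₂)) D).toSubring := by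
      rw [← hD, Subring.closure_le]
      rintro d (⟨a, rfl⟩ | ⟨a, rfl⟩)
      · exact hmono s₁ Set.subset_union_left _ (ha₁ a)
      · exact hmono s₂ Set.subset_union_right _ (ha₂ a)
    exact ⟨fun d => hall (Subring.mem_top d)⟩
  have hle : Algebra.trdeg k D ≤ Cardinal.mk (s₁ ∪ s₂ : Set D) :=
    Algebra.IsAlgebraic.trdeg_le_cardinalMk k (s₁ ∪ s₂)
  have hle2 := hle.trans ((Cardinal.mk_union_le s₁ s₂).trans (add_le_add hs₁ hs₂))
  unfold tr
  rw [← Cardinal.toNat_add hfin1 hfin2]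
  exact Cardinal.toNat_le_toNat hle2 (Cardinal.add_lt_aleph0 hfin1 hfin2)

end LibMX2
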