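import Pool.Agent.LibMX2.Defs

/-! MX2 row A14 (MP_498328_ag). -/

namespace LibMX2

open AlgebraicGeometry CategoryTheory TopologicalSpace

theorem exists_val {R K : Type} [CommRing R] [Field K] (ι : R →+* K) (hι : Function.Injective ι)
    (P : Ideal R) [P.IsPrime] : ∃ V : ValuationSubring K, Dom ι P V := by
  let e : R ≃+* ι.range := RingEquiv.ofBijective ι.rangeRestrict
    ⟨fun a b h => hι (congrArg Subtype.val h), ι.rangeRestrict_surjective⟩
  let P' : Ideal ι.range := P.comap (e.symm : ι.range →+* R)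
  have hP' : P'.IsPrime := Ideal.comap_isPrime _ _
  obtain ⟨V, hle, hloc⟩ := (LocalSubring.ofPrime ι.range P').exists_le_valuationSubring
  have hmem : ∀ t : R, ι t ∈ V := fun t =>
    hle (LocalSubring.le_ofPrime ι.range P' ⟨t, rfl⟩)
  refine ⟨V, hmem, fun t => ?_⟩
  have h1 : IsUnit (algebraMap ι.range (LocalSubring.ofPrime ι.range P').toSubring (e t)) ↔
      t ∉ P := by
    rw [IsLocalization.AtPrime.isUnit_to_map_iff _ P']
    show ¬ (e.symm (e t) ∈ P) ↔ _
    rw [e.symm_apply_apply]
  have h2 : IsUnit (⟨ι t, hmem t⟩ : V) ↔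
      IsUnit (algebraMap ι.range (LocalSubring.ofPrime ι.range P').toSubring (e t)) := by
    constructor
    · intro h
      exact hloc.map_nonunit _ h
    · intro h
      exact h.map (Subring.inclusion hle)
  rw [ValuationSubring.mem_nonunits_iff_exists_mem_maximalIdeal]
  constructor
  · rintro ⟨ha, h⟩
    by_contra ht
    rw [IsLocalRing.mem_maximalIdeal, mem_nonunits_iff] at h
    exact h (h2.2 (h1.2 ht))
  · intro ht
    refine ⟨hmem t, ?_⟩
    rw [IsLocalRing.mem_maximalIdeal, mem_nonunits_iff]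
    exact fun h => h1.1 (h2.1 h) ht

end LibMX2
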