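import Pool.Agent.LibMX2.Defs

/-! MX2 row A15 (MP_498328_ag). -/

namespace LibMX2

open AlgebraicGeometry CategoryTheory TopologicalSpace

theorem reduced_frac {R K : Type} [CommRing R] [IsDomain R] [Field K] (ι : R →+* K)
    (hι : Function.Injective ι) (hK : ∀ x : K, ∃ s t, ι t ≠ 0 ∧ x * ι t = ι s)
    (m : Ideal R) [m.IsPrime] (hU : UniqueFactorizationMonoid (Localization.AtPrime m))
    (x : K) (hx : ¬ InLoc ι m x) :
    ∃ p q : R, q ≠ 0 ∧ q ∈ m ∧ x * ι q = ι p ∧
      ∀ P : Ideal R, P.IsPrime → P ≤ m → q ∈ P → ¬ InLoc ι P x := by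
  classical
  have hnz : ∀ y : m.primeCompl, (y : R) ≠ 0 := fun y h => y.2 (h ▸ m.zero_mem)
  have hu : ∀ y : m.primeCompl, IsUnit (ι (y : R)) := fun y =>
    isUnit_iff_ne_zero.2 fun h => hnz y (hι (by rw [h, map_zero]))
  have hinj : Function.Injective (algebraMap R (Localization.AtPrime m)) :=
    IsLocalization.injective (Localization.AtPrime m) m.primeCompl_le_nonZeroDivisors
  haveI : IsDomain (Localization.AtPrime m) :=
    IsLocalization.isDomain_localization m.primeCompl_le_nonZeroDivisors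
  obtain ⟨φ, hφ⟩ : ∃ φ : Localization.AtPrime m →+* K, ∀ r : R,
      φ (algebraMap R (Localization.AtPrime m) r) = ι r :=
    ⟨IsLocalization.lift (M := m.primeCompl) hu, fun r => IsLocalization.lift_eq hu r⟩
  have hφinj : ∀ z : Localization.AtPrime m, φ z = 0 → z = 0 := by
    intro z hz
    obtain ⟨r, s, rfl⟩ := IsLocalization.exists_mk'_eq m.primeCompl z
    have h1 : IsLocalization.mk' (Localization.AtPrime m) r s *
        algebraMap R (Localization.AtPrime m) s = algebraMap R (Localization.AtPrime m) r :=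
      IsLocalization.mk'_spec _ r s
    have h2 := congrArg φ h1
    rw [map_mul, hz, zero_mul, hφ] at h2
    have h3 : r = 0 := hι (by rw [← h2, map_zero])
    rw [h3, IsLocalization.mk'_zero]
  obtain ⟨s₀, t₀, ht₀, hx₀⟩ := hK x
  have ht₀' : algebraMap R (Localization.AtPrime m) t₀ ≠ 0 := by
    intro h
    apply ht₀
    rw [← hφ, h, map_zero]
  obtain ⟨q', p', c', hrel, hq', hp'⟩ :=
    UniqueFactorizationMonoid.exists_reduced_factors (algebraMap R (Localization.AtPrime m) t₀) ht₀'
      (algebraMap R (Localization.AtPrime m) s₀)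
  have hc0 : c' ≠ 0 := by
    rintro rfl
    rw [zero_mul] at hq'
    exact ht₀' hq'.symm
  have hq0 : q' ≠ 0 := by
    rintro rfl
    rw [mul_zero] at hq'
    exact ht₀' hq'.symm
  have hxq : x * φ q' = φ p' := by
    have h1 : φ c' ≠ 0 := fun h => hc0 (hφinj _ h)
    apply mul_left_cancel₀ h1
    have h2 : ι t₀ = φ c' * φ q' := by rw [← hφ, ← hq', map_mul]
    have h3 : ι s₀ = φ c' * φ p' := by rw [← hφ, ← hp', map_mul]
    rw [← h3, ← hx₀, h2]
    ring
  obtain ⟨q₁, s₁, hq₁⟩ := IsLocalization.exists_mk'_eq m.primeCompl q'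
  obtain ⟨p₁, t₁, hp₁⟩ := IsLocalization.exists_mk'_eq m.primeCompl p'
  have hq₁' : q' * algebraMap R (Localization.AtPrime m) s₁ =
      algebraMap R (Localization.AtPrime m) q₁ := by
    rw [← hq₁]
    exact IsLocalization.mk'_spec _ _ _
  have hp₁' : p' * algebraMap R (Localization.AtPrime m) t₁ =
      algebraMap R (Localization.AtPrime m) p₁ := by
    rw [← hp₁]
    exact IsLocalization.mk'_spec _ _ _
  -- the common unit
  have hq : algebraMap R (Localization.AtPrime m) (q₁ * t₁) =
      q' * algebraMap R (Localization.AtPrime m) ((s₁ : R) * t₁) := by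
    rw [map_mul, map_mul, ← hq₁']
    ring
  have hp : algebraMap R (Localization.AtPrime m) (p₁ * s₁) =
      p' * algebraMap R (Localization.AtPrime m) ((s₁ : R) * t₁) := by
    rw [map_mul, map_mul, ← hp₁']
    ring
  have hu0 : algebraMap R (Localization.AtPrime m) ((s₁ : R) * t₁) ≠ 0 := by
    intro h
    have h1 : (s₁ : R) * t₁ = 0 := hinj (by rw [h, map_zero])
    rcases mul_eq_zero.1 h1 with h2 | h2
    · exact hnz s₁ h2
    · exact hnz t₁ h2
  have hxqp : x * ι (q₁ * t₁) = ι (p₁ * s₁) := by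
    rw [← hφ (q₁ * t₁), ← hφ (p₁ * s₁), hq, hp, map_mul φ q', map_mul φ p', ← mul_assoc, hxq]
  have hqne : q₁ * (t₁ : R) ≠ 0 := by
    intro h
    rw [h, map_zero] at hq
    exact mul_ne_zero hq0 hu0 hq.symm
  refine ⟨p₁ * s₁, q₁ * t₁, hqne, ?_, hxqp, ?_⟩
  · by_contra hqm
    exact hx ⟨q₁ * t₁, hqm, p₁ * s₁, hxqp⟩
  · rintro P hP hPm hqP ⟨s, hs, t, hst⟩
    have h1 : (p₁ * s₁) * s = t * (q₁ * t₁) := by
      apply hι
      rw [map_mul ι (p₁ * s₁) s, map_mul ι t (q₁ * t₁), ← hxqp, ← hst]
      ring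
    have h2 : p' * algebraMap R (Localization.AtPrime m) s =
        algebraMap R (Localization.AtPrime m) t * q' := by
      have h3 := congrArg (algebraMap R (Localization.AtPrime m)) h1
      rw [map_mul _ (p₁ * s₁) s, map_mul _ t (q₁ * t₁), hp, hq] at h3
      apply mul_right_cancel₀ hu0
      linear_combination h3
    have h4 : q' ∣ p' * algebraMap R (Localization.AtPrime m) s := by
      rw [h2]
      exact dvd_mul_left _ _
    obtain ⟨w, hw⟩ := IsRelPrime.dvd_of_dvd_mul_left hrel h4
    obtain ⟨v, u, rfl⟩ := IsLocalization.exists_mk'_eq m.primeCompl w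
    have h5 : IsLocalization.mk' (Localization.AtPrime m) v u *
        algebraMap R (Localization.AtPrime m) u = algebraMap R (Localization.AtPrime m) v :=
      IsLocalization.mk'_spec _ v u
    have h6 : s * u * ((s₁ : R) * t₁) = (q₁ * t₁) * v := by
      apply hinj
      rw [map_mul _ (s * u) _, map_mul _ s (u : R), map_mul _ (q₁ * t₁) v, hq, hw, ← h5]
      ring
    have h7 : s * u * ((s₁ : R) * t₁) ∈ P := by
      rw [h6]
      exact P.mul_mem_right _ hqP
    rcases hP.mem_or_mem h7 with h8 | h8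
    · rcases hP.mem_or_mem h8 with h9 | h9
      · exact hs h9
      · exact u.2 (hPm h9)
    · rcases hP.mem_or_mem h8 with h9 | h9
      · exact s₁.2 (hPm h9)
      · exact t₁.2 (hPm h9)

end LibMX2
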