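import Pool.Agent.LibMX2.Defs
import Pool.Agent.LibMX2.A2
import Pool.Agent.LibMX2.A4
import Pool.Agent.LibMX2.A9
import Pool.Agent.LibMX2.A13
import Pool.Agent.LibMX2.A14
import Pool.Agent.LibMX2.A15

/-! MX2 row A16 (MP_498328_ag). -/

namespace LibMX2

open AlgebraicGeometry CategoryTheory TopologicalSpace

/-- the subring of `K` generated by the images of `R` and `A`, with its structure map, is of
finite type over `k` -/
theorem a16_fg {k R K A : Type} [Field k] [CommRing R] [Field K] [CommRing A]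
    (ι : R →+* K) (f : k →+* R) (hf : f.FiniteType) (fA : k →+* A) (hA : fA.FiniteType)
    (α : A →+* K) (hα : α.comp fA = ι.comp f) :
    ∃ (S : Subring K) (i : R →+* S) (j : A →+* S),
      (∀ t, (i t : K) = ι t) ∧ (∀ b, (j b : K) = α b) ∧ j.comp fA = i.comp f ∧
      (i.comp f).FiniteType ∧ Subring.closure (Set.range i ∪ Set.range j) = ⊤ := by
  classical
  let _ : Algebra k R := f.toAlgebra
  let _ : Algebra k A := fA.toAlgebra
  let _ : Algebra k K := (ι.comp f).toAlgebra
  let ι' : R →ₐ[k] K := { ι with commutes' := fun c => rfl }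
  let α' : A →ₐ[k] K := { α with commutes' := fun c => congrArg (fun h : k →+* K => h c) hα }
  let T : Subalgebra k K := ι'.range ⊔ α'.range
  have hιT : ∀ t, ι t ∈ T := fun t => (le_sup_left : ι'.range ≤ T) ⟨t, rfl⟩
  have hαT : ∀ b, α b ∈ T := fun b => (le_sup_right : α'.range ≤ T) ⟨b, rfl⟩
  have hT : T.FG := by
    have h1 : ι'.range.FG := by
      have : (⊤ : Subalgebra k R).FG := hf.1
      have h := this.map ι'
      rwa [Algebra.map_top] at h
    have h2 : α'.range.FG := by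
      have : (⊤ : Subalgebra k A).FG := hA.1
      have h := this.map α'
      rwa [Algebra.map_top] at h
    exact h1.sup h2
  let i : R →+* T.toSubring := ι.codRestrict T.toSubring hιT
  let j : A →+* T.toSubring := α.codRestrict T.toSubring hαT
  refine ⟨T.toSubring, i, j, fun t => rfl, fun b => rfl, ?_, ?_, ?_⟩
  · ext c
    exact congrArg (fun h : k →+* K => h c) hα
  · have : Algebra.FiniteType k T := (Subalgebra.fg_iff_finiteType T).1 hT
    exact this
  · rw [eq_top_iff]
    rintro ⟨x, hx⟩ -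
    have hx' : x ∈ T := hx
    let C : Subalgebra k K :=
      { Subring.closure (Set.range ι ∪ Set.range α) with
        algebraMap_mem' := fun c => Subring.subset_closure (Or.inl ⟨f c, rfl⟩) }
    have hTC : T ≤ C := by
      refine sup_le ?_ ?_
      · rintro _ ⟨t, rfl⟩
        exact Subring.subset_closure (Or.inl ⟨t, rfl⟩)
      · rintro _ ⟨t, rfl⟩
        exact Subring.subset_closure (Or.inr ⟨t, rfl⟩)
    have hxC : x ∈ Subring.closure (Set.range ι ∪ Set.range α) := hTC hx'
    suffices H : ∃ h : x ∈ T.toSubring,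
        (⟨x, h⟩ : T.toSubring) ∈ Subring.closure (Set.range i ∪ Set.range j) from H.2
    clear hx hx'
    induction hxC using Subring.closure_induction with
    | mem x hx =>
      rcases hx with ⟨t, rfl⟩ | ⟨t, rfl⟩
      · exact ⟨hιT t, Subring.subset_closure (Or.inl ⟨t, rfl⟩)⟩
      · exact ⟨hαT t, Subring.subset_closure (Or.inr ⟨t, rfl⟩)⟩
    | zero => exact ⟨Subring.zero_mem _, Subring.zero_mem _⟩
    | one => exact ⟨Subring.one_mem _, Subring.one_mem _⟩
    | add x y _ _ hx hy =>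
      obtain ⟨h1, h1'⟩ := hx
      obtain ⟨h2, h2'⟩ := hy
      exact ⟨Subring.add_mem _ h1 h2, Subring.add_mem _ h1' h2'⟩
    | neg x _ hx =>
      obtain ⟨h1, h1'⟩ := hx
      exact ⟨Subring.neg_mem _ h1, Subring.neg_mem _ h1'⟩
    | mul x y _ _ hx hy =>
      obtain ⟨h1, h1'⟩ := hx
      obtain ⟨h2, h2'⟩ := hy
      exact ⟨Subring.mul_mem _ h1 h2, Subring.mul_mem _ h1' h2'⟩

theorem core {k R K A : Type} [Field k] [CommRing R] [IsDomain R] [Field K] [CommRing A]
    (ι : R →+* K) (hι : Function.Injective ι) (hK : ∀ x : K, ∃ s t, ι t ≠ 0 ∧ x * ι t = ι s)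
    (f : k →+* R) (hf : f.FiniteType) (m : Ideal R) [m.IsPrime]
    (hU : UniqueFactorizationMonoid (Localization.AtPrime m))
    (fA : k →+* A) (hA : fA.FiniteType) (α : A →+* K) (hα : α.comp fA = ι.comp f)
    (V : ValuationSubring K) (hV : Dom ι m V) (hVA : ∀ a, α a ∈ V) (r : ℕ)
    (hdim : ∀ P : Ideal A, P.IsPrime → tr (quo fA P) + r < tr f)
    (a : A) (ha : ¬ InLoc ι m (α a)) :
    ∃ P : Ideal R, P.IsPrime ∧ P ≤ m ∧ r ≤ tr (quo f P) ∧ ¬ InLoc ι P (α a) ∧
      ∃ V' : ValuationSubring K, Dom ι P V' ∧ ∀ b, α b ∈ V' := by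
  obtain ⟨S, i, j, hi, hj, hij, hS, hgen⟩ := a16_fg ι f hf fA hA α hα
  obtain ⟨p, q, hq0, hqm, hpq, hP⟩ := reduced_frac ι hι hK m hU (α a) ha
  -- the inclusion of `S` and its structure map
  have hιS : Function.Injective S.subtype := Subtype.val_injective
  have hcomp : S.subtype.comp i = ι := RingHom.ext hi
  have hcompA : S.subtype.comp j = α := RingHom.ext hj
  -- `S` lies in `V`
  have hSV : ∀ x : S, (x : K) ∈ V := by
    intro x
    have hx : x ∈ Subring.closure (Set.range i ∪ Set.range j) := hgen ▸ Subring.mem_top x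
    induction hx using Subring.closure_induction with
    | mem x hx =>
      rcases hx with ⟨t, rfl⟩ | ⟨t, rfl⟩
      · rw [hi]; exact hV.1 t
      · rw [hj]; exact hVA t
    | zero => exact V.zero_mem
    | one => exact V.one_mem
    | add x y _ _ hx hy => exact V.add_mem _ _ hx hy
    | neg x _ hx => exact V.neg_mem _ hx
    | mul x y _ _ hx hy => exact V.mul_mem _ _ hx hy
  let h : S →+* V := S.subtype.codRestrict V.toSubring hSV
  let n : Ideal S := (IsLocalRing.maximalIdeal V).comap h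
  have hn : ∀ x : S, x ∈ n ↔ (x : K) ∈ V.nonunits := by
    intro x
    rw [ValuationSubring.mem_nonunits_iff_exists_mem_maximalIdeal]
    constructor
    · intro hx
      exact ⟨hSV x, hx⟩
    · rintro ⟨_, hx⟩
      exact hx
  have hnp : n.IsPrime := Ideal.comap_isPrime _ _
  -- a minimal prime of `q`
  have hqn : i q ∈ n := by
    rw [hn, hi]
    exact (hV.2 q).2 hqm
  obtain ⟨𝔮, h𝔮, h𝔮n⟩ := Ideal.exists_minimalPrimes_le
    (show Ideal.span {i q} ≤ n by rw [Ideal.span_singleton_le_iff_mem]; exact hqn)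
  have h𝔮p : 𝔮.IsPrime := h𝔮.1.1
  have hq𝔮 : i q ∈ 𝔮 := h𝔮.1.2 (Ideal.mem_span_singleton_self _)
  -- transcendence degrees
  have htr : tr (i.comp f) = tr f := by
    have h1 := tr_frac f ι hι hK
    have h2 := tr_frac (i.comp f) S.subtype hιS (by
      intro x
      obtain ⟨s, t, ht, hx⟩ := hK x
      refine ⟨i s, i t, ?_, ?_⟩
      · have : S.subtype (i t) = ι t := hi t
        rw [this]; exact ht
      · have h1 : S.subtype (i t) = ι t := hi t
        have h2 : S.subtype (i s) = ι s := hi s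
        rw [h1, h2]; exact hx)
    rw [← h1, ← h2, ← RingHom.comp_assoc, hcomp]
  have hdrop := tr_drop (i.comp f) hS (i q) 𝔮 h𝔮
  let g₁ : R →+* S ⧸ 𝔮 := (Ideal.Quotient.mk 𝔮).comp i
  let g₂ : A →+* S ⧸ 𝔮 := (Ideal.Quotient.mk 𝔮).comp j
  have hg : g₁.comp f = g₂.comp fA := by
    show ((Ideal.Quotient.mk 𝔮).comp i).comp f = ((Ideal.Quotient.mk 𝔮).comp j).comp fA
    rw [RingHom.comp_assoc, RingHom.comp_assoc, hij]
  have hgen2 : Subring.closure (Set.range g₁ ∪ Set.range g₂) = ⊤ := by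
    have h1 := congrArg (Subring.map (Ideal.Quotient.mk 𝔮)) hgen
    rw [RingHom.map_closure, Set.image_union, ← Set.range_comp, ← Set.range_comp] at h1
    have h2 : Subring.map (Ideal.Quotient.mk 𝔮) ⊤ = ⊤ := by
      rw [← RingHom.range_eq_map]
      exact RingHom.range_eq_top.2 Ideal.Quotient.mk_surjective
    rw [h2] at h1
    exact h1
  have hcompn := tr_comp f fA hf hA g₁ g₂ hg hgen2
  have hker := hdim (RingHom.ker g₂) (RingHom.ker_isPrime g₂)
  have hg1 : tr (g₁.comp f) = tr (quo (i.comp f) 𝔮) := rfl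
  have hmem : ∀ t, t ∈ RingHom.ker g₁ ↔ i t ∈ 𝔮 := by
    intro t
    rw [RingHom.mem_ker]
    exact Ideal.Quotient.eq_zero_iff_mem
  have hPm : RingHom.ker g₁ ≤ m := by
    intro t ht
    have h1 := h𝔮n ((hmem t).1 ht)
    rw [hn, hi] at h1
    exact (hV.2 t).1 h1
  have hPp : (RingHom.ker g₁).IsPrime := RingHom.ker_isPrime g₁
  obtain ⟨V', hV'⟩ := exists_val S.subtype hιS 𝔮
  refine ⟨RingHom.ker g₁, hPp, hPm, ?_, hP _ hPp hPm ((hmem q).2 hq𝔮), V', ⟨?_, ?_⟩, ?_⟩
  · omega
  · intro t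
    rw [← hi]
    exact hV'.1 (i t)
  · intro t
    rw [hmem, ← hi]
    exact hV'.2 (i t)
  · intro b
    rw [← hj]
    exact hV'.1 (j b)

end LibMX2
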