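import Mathlib

/-! MX2: extension of morphisms from closed subvarieties (MP_498328). Basic definitions. -/

namespace LibMX2

open AlgebraicGeometry CategoryTheory TopologicalSpace

/-- transcendence degree of a `k`-algebra given by a ring homomorphism (0 if infinite) -/
noncomputable def tr {k D : Type} [Field k] [CommRing D] (f : k →+* D) : ℕ :=
  Cardinal.toNat (@Algebra.trdeg k D _ _ f.toAlgebra)

/-- the composite `k → D → D/P` -/
noncomputable abbrev quo {k D : Type} [Field k] [CommRing D] (f : k →+* D) (P : Ideal D) :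
    k →+* D ⧸ P := (Ideal.Quotient.mk P).comp f

/-- `x` lies in the localisation of `R` at `P` (inside `K`), `ι : R → K` -/
def InLoc {R K : Type} [CommRing R] [CommRing K] (ι : R →+* K) (P : Ideal R) (x : K) : Prop :=
  ∃ s, s ∉ P ∧ ∃ t, x * ι s = ι t

/-- the valuation ring `V` of `K` contains `ι R` and has centre `P` on it -/
def Dom {R K : Type} [CommRing R] [Field K] (ι : R →+* K) (P : Ideal R)
    (V : ValuationSubring K) : Prop :=
  (∀ t : R, ι t ∈ V) ∧ ∀ t : R, ι t ∈ V.nonunits ↔ t ∈ P

/-- the structure map of the sections over `U` of a scheme over `k` -/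
noncomputable def kmap {k : Type} [Field k] {X : Scheme.{0}} (s : X ⟶ Spec (.of k))
    (U : X.Opens) : k →+* Γ(X, U) :=
  ((Scheme.ΓSpecIso (.of k)).inv ≫ s.appLE ⊤ U le_top).hom

/-- the generic point map `Spec K(X) → X` -/
noncomputable abbrev gen (X : Scheme.{0}) [IsIntegral X] : Spec X.functionField ⟶ X :=
  X.fromSpecStalk (genericPoint X)

/-- the map `Spec K(X) → Spec O_{X,w}` -/
noncomputable abbrev locgen (X : Scheme.{0}) [IsIntegral X] (w : X) :
    Spec X.functionField ⟶ Spec (X.presheaf.stalk w) :=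
  Spec.map (X.presheaf.stalkSpecializes ((genericPoint_spec X).specializes trivial))

/-- `ζ : Spec K(X) → Z` extends to `Spec O_{X,w}` -/
def Ext (X Z : Scheme.{0}) [IsIntegral X] (ζ : Spec X.functionField ⟶ Z) (w : X) : Prop :=
  ∃ θ : Spec (X.presheaf.stalk w) ⟶ Z, locgen X w ≫ θ = ζ

/-- `(W, α)` is a chart of `ζ` -/
def Chart (X Z : Scheme.{0}) [IsIntegral X] (ζ : Spec X.functionField ⟶ Z) (W : Z.Opens)
    (α : Γ(Z, W) ⟶ X.functionField) : Prop :=
  ∃ h : IsAffineOpen W, Spec.map α ≫ h.fromSpec = ζ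

/-- the restriction `Γ(X, U) → K(X)` -/
noncomputable abbrev res (X : Scheme.{0}) [IsIntegral X] (U : X.Opens) [Nonempty U] :
    Γ(X, U) →+* X.functionField := (X.germToFunctionField U).hom

end LibMX2
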