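import Pool.Agent.LibMX2.Defs

/-! MX2 row S5 (MP_498328_ag). -/

namespace LibMX2

open AlgebraicGeometry CategoryTheory TopologicalSpace

/-- a unit criterion -/
lemma s5_unit {K : Type} [Field K] (V : ValuationSubring K) (x : K)
    (h2 : x ∉ V.nonunits) : x ≠ 0 ∧ x⁻¹ ∈ V := by
  rw [ValuationSubring.mem_nonunits_iff_or] at h2
  push Not at h2
  exact h2

/-- the localisation goes to the valuation ring, and the map is local -/
lemma s5_alg {R O K : Type} [CommRing R] [CommRing O] [IsLocalRing O] [Field K] (g : R →+* O)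
    (s0 : O →+* K) (ι : R →+* K) (hι : ∀ r, s0 (g r) = ι r)
    (P : Ideal R) [P.IsPrime] (hloc : @IsLocalization.AtPrime R _ O _ g.toAlgebra P _)
    (V : ValuationSubring K) (hD : Dom ι P V) :
    (∀ y, s0 y ∈ V) ∧ ∀ y, ¬ IsUnit y → s0 y ∈ V.nonunits := by
  let _ := g.toAlgebra
  have _ := hloc
  obtain ⟨hD1, hD2⟩ := hD
  have key : ∀ y : O, ∃ s r : R, s ∉ P ∧ y * g s = g r := by
    intro y
    obtain ⟨⟨r, s⟩, h⟩ := IsLocalization.surj P.primeCompl y
    exact ⟨s.1, r, s.2, h⟩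
  have hs : ∀ s : R, s ∉ P → ι s ≠ 0 ∧ (ι s)⁻¹ ∈ V := fun s hs =>
    s5_unit V _ fun h => hs ((hD2 s).1 h)
  have hy : ∀ (y : O) (s r : R), s ∉ P → y * g s = g r → s0 y = ι r * (ι s)⁻¹ := by
    intro y s r h1 h2
    have h3 := congrArg s0 h2
    rw [map_mul, hι, hι] at h3
    rw [← h3, mul_assoc, mul_inv_cancel₀ (hs s h1).1, mul_one]
  refine ⟨fun y => ?_, fun y hy0 => ?_⟩
  · obtain ⟨s, r, h1, h2⟩ := key y
    rw [hy y s r h1 h2]
    exact V.mul_mem _ _ (hD1 r) (hs s h1).2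
  · obtain ⟨s, r, h1, h2⟩ := key y
    have hr : r ∈ P := by
      by_contra hr
      apply hy0
      have hu : IsUnit (g r) := IsLocalization.map_units (M := P.primeCompl) O ⟨r, hr⟩
      rw [← h2] at hu
      exact isUnit_of_mul_isUnit_left hu
    rw [hy y s r h1 h2, ValuationSubring.mem_nonunits_iff, map_mul]
    have e1 : V.valuation (ι r) < 1 := by
      rw [← ValuationSubring.mem_nonunits_iff]
      exact (hD2 r).2 hr
    have e2 : V.valuation ((ι s)⁻¹) ≤ 1 := (V.valuation_le_one_iff _).2 (hs s h1).2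
    exact mul_lt_one_of_lt_of_le e1 e2

theorem glue1 {k : Type} [Field k] (X Z : Scheme.{0}) [IsIntegral X] (sZ : Z ⟶ Spec (.of k))
    [IsSeparated sZ] (ζ : Spec X.functionField ⟶ Z)
    (U : X.Opens) (hU : IsAffineOpen U) [Nonempty U] (w : X) (hw : w ∈ U) (hE : Ext X Z ζ w)
    (W : Z.Opens) (α : Γ(Z, W) ⟶ X.functionField) (hα : Chart X Z ζ W α)
    (V : ValuationSubring X.functionField)
    (hD : Dom (res X U) (hU.primeIdealOf ⟨w, hw⟩).asIdeal V) (hV : ∀ a, α.hom a ∈ V) (a) :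
    InLoc (res X U) (hU.primeIdealOf ⟨w, hw⟩).asIdeal (α.hom a) := by
  obtain ⟨θ, hθ⟩ := hE
  obtain ⟨hW, hα⟩ := hα
  have hloc : @IsLocalization.AtPrime Γ(X, U) _ (X.presheaf.stalk w) _
      (X.presheaf.germ U w hw).hom.toAlgebra (hU.primeIdealOf ⟨w, hw⟩).asIdeal _ :=
    hU.isLocalization_stalk ⟨w, hw⟩
  set s0 := X.presheaf.stalkSpecializes ((genericPoint_spec X).specializes (y := w) trivial)
    with hs0
  have hι : ∀ r, s0.hom ((X.presheaf.germ U w hw).hom r) = res X U r := by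
    intro r
    have := X.presheaf.germ_stalkSpecializes (U := U) hw
      ((genericPoint_spec X).specializes (y := w) trivial)
    exact congrArg (fun f => f.hom r) this
  obtain ⟨hA, hB⟩ := s5_alg (X.presheaf.germ U w hw).hom s0.hom (res X U) hι
    (hU.primeIdealOf ⟨w, hw⟩).asIdeal hloc V hD
  let β : X.presheaf.stalk w →+* V := s0.hom.codRestrict V.toSubring hA
  let vK : CommRingCat.of V ⟶ X.functionField := CommRingCat.ofHom V.subtype
  let αV : Γ(Z, W) ⟶ CommRingCat.of V := CommRingCat.ofHom (α.hom.codRestrict V.toSubring hV)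
  have hβK : CommRingCat.ofHom β ≫ vK = s0 := by ext y; rfl
  have hαK : αV ≫ vK = α := by ext y; rfl
  haveI hloc : IsLocalHom β := by
    constructor
    intro y hy
    by_contra hn
    have h1 := hB y hn
    rw [ValuationSubring.mem_nonunits_iff] at h1
    have h2 := (V.valuation_eq_one_iff (β y)).1 hy
    exact absurd h2 (ne_of_lt h1)
  haveI hdom : IsDominant (Spec.map vK) := by
    constructor
    have h1 : DenseRange (PrimeSpectrum.comap vK.hom) := by
      rw [PrimeSpectrum.denseRange_comap_iff_ker_le_nilRadical]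
      have h2 : RingHom.ker vK.hom = ⊥ :=
        (RingHom.injective_iff_ker_eq_bot _).1 Subtype.val_injective
      rw [h2]
      exact bot_le
    exact h1
  haveI : IsReduced (Spec (CommRingCat.of V)) := inferInstance
  have e12 : Spec.map (CommRingCat.ofHom β) ≫ θ = Spec.map αV ≫ hW.fromSpec := by
    have e0 : Spec.map vK ≫ (Spec.map (CommRingCat.ofHom β) ≫ θ) =
        Spec.map vK ≫ (Spec.map αV ≫ hW.fromSpec) := by
      rw [← Spec.map_comp_assoc, ← Spec.map_comp_assoc, hβK, hαK, hα]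
      exact hθ
    refine ext_of_isDominant_of_isSeparated sZ ?_ (Spec.map vK) e0
    refine ext_of_isDominant (Spec.map vK) ?_
    have e1 := congrArg (fun f => f ≫ sZ) e0
    simpa only [Category.assoc] using e1
  have hcl : θ (IsLocalRing.closedPoint (X.presheaf.stalk w)) ∈ W := by
    have h1 : (Spec.map (CommRingCat.ofHom β) ≫ θ) (IsLocalRing.closedPoint V) =
        θ (IsLocalRing.closedPoint (X.presheaf.stalk w)) := by
      rw [Scheme.Hom.comp_apply]
      congr 1
      exact IsLocalRing.comap_closedPoint β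
    rw [← h1, e12, Scheme.Hom.comp_apply]
    have h2 : hW.fromSpec ((Spec.map αV) (IsLocalRing.closedPoint V)) ∈ Set.range hW.fromSpec :=
      ⟨_, rfl⟩
    rw [hW.range_fromSpec] at h2
    exact h2
  have hrange : Set.range θ ⊆ Set.range hW.fromSpec := by
    rw [hW.range_fromSpec]
    rintro _ ⟨x, rfl⟩
    have h1 : IsLocalRing.closedPoint (X.presheaf.stalk w) ∈ θ ⁻¹ᵁ W := hcl
    have h2 := (IsLocalRing.closedPoint_mem_iff (θ ⁻¹ᵁ W)).1 h1
    have h3 : x ∈ θ ⁻¹ᵁ W := by rw [h2]; trivial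
    exact h3
  obtain ⟨γ, hγ⟩ : ∃ γ : Γ(Z, W) ⟶ X.presheaf.stalk w, Spec.map γ ≫ hW.fromSpec = θ := by
    refine ⟨Spec.preimage (IsOpenImmersion.lift hW.fromSpec θ hrange), ?_⟩
    rw [Spec.map_preimage, IsOpenImmersion.lift_fac]
  have hαγ : α = γ ≫ s0 := by
    apply Spec.map_injective
    rw [← cancel_mono hW.fromSpec, hα, Spec.map_comp, Category.assoc, hγ]
    exact hθ.symm
  letI := (X.presheaf.germ U w hw).hom.toAlgebra
  obtain ⟨⟨r, s⟩, h⟩ := IsLocalization.surj (hU.primeIdealOf ⟨w, hw⟩).asIdeal.primeCompl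
    (γ.hom a)
  refine ⟨s.1, s.2, r, ?_⟩
  have h3 := congrArg s0.hom h
  rw [map_mul] at h3
  have h4 : α.hom a = s0.hom (γ.hom a) := by rw [hαγ]; rfl
  rw [h4, ← hι, ← hι]
  exact h3

end LibMX2
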