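import Pool.Agent.LibMX2.Defs

/-! MX2 row S6 (MP_498328_ag). -/

namespace LibMX2

open AlgebraicGeometry CategoryTheory TopologicalSpace

theorem s6_spec (X : Scheme.{0}) [IsIntegral X] (w : X) : genericPoint X ⤳ w :=
  (genericPoint_spec X).specializes trivial

/-- germs in the local ring at `w` of `X`, mapped to the function field -/
theorem s6_germ (X : Scheme.{0}) [IsIntegral X] (U : X.Opens) [Nonempty U] (w : X) (hw : w ∈ U)
    (f : Γ(X, U)) :
    (X.presheaf.stalkSpecializes (s6_spec X w)).hom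
      ((X.presheaf.germ U w hw).hom f) = res X U f :=
  Scheme.algebraMap_germ_eq_germToFunctionField X hw f

theorem s6_inj (X : Scheme.{0}) [IsIntegral X] (w : X) : Function.Injective
    (X.presheaf.stalkSpecializes (s6_spec X w)).hom :=
  IsFractionRing.injective (X.presheaf.stalk w) X.functionField

theorem s6_unit (X : Scheme.{0}) [IsIntegral X] (U : X.Opens) (hU : IsAffineOpen U)
    (w : X) (hw : w ∈ U) (s : Γ(X, U)) (hs : s ∉ (hU.primeIdealOf ⟨w, hw⟩).asIdeal) :
    IsUnit ((X.presheaf.germ U w hw).hom s) := by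
  let _ := TopCat.Presheaf.algebra_section_stalk X.presheaf (⟨w, hw⟩ : U)
  have h := hU.isLocalization_stalk ⟨w, hw⟩
  exact IsLocalization.map_units (M := (hU.primeIdealOf ⟨w, hw⟩).asIdeal.primeCompl)
    (X.presheaf.stalk w) ⟨s, hs⟩

theorem glue2 (X Z : Scheme.{0}) [IsIntegral X] (ζ : Spec X.functionField ⟶ Z)
    (U : X.Opens) (hU : IsAffineOpen U) [Nonempty U] (w : X) (hw : w ∈ U)
    (W : Z.Opens) (α : Γ(Z, W) ⟶ X.functionField) (hα : Chart X Z ζ W α)
    (h : ∀ a, InLoc (res X U) (hU.primeIdealOf ⟨w, hw⟩).asIdeal (α.hom a)) : Ext X Z ζ w := by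
  obtain ⟨hW, hζ⟩ := hα
  let σ : X.presheaf.stalk w ⟶ X.functionField := X.presheaf.stalkSpecializes (s6_spec X w)
  have hinj : Function.Injective σ.hom := s6_inj X w
  have hr : ∀ a, α.hom a ∈ σ.hom.range := by
    intro a
    obtain ⟨s, hs, t, ht⟩ := h a
    obtain ⟨u, hu⟩ := s6_unit X U hU w hw s hs
    refine ⟨(X.presheaf.germ U w hw).hom t * ((u⁻¹ : (X.presheaf.stalk w)ˣ) : X.presheaf.stalk w),
      ?_⟩
    have h1 : σ.hom ((u : (X.presheaf.stalk w)ˣ) : X.presheaf.stalk w) = res X U s := by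
      rw [hu]; exact s6_germ X U w hw s
    have h2 : σ.hom ((X.presheaf.germ U w hw).hom t) = res X U t := s6_germ X U w hw t
    have h3 : σ.hom ((u : (X.presheaf.stalk w)ˣ) : X.presheaf.stalk w) *
        σ.hom ((u⁻¹ : (X.presheaf.stalk w)ˣ) : X.presheaf.stalk w) = 1 := by
      rw [← map_mul, Units.mul_inv, map_one]
    rw [map_mul, h2, ← ht, ← h1, mul_assoc, h3, mul_one]
  let e := RingEquiv.ofBijective σ.hom.rangeRestrict
    ⟨fun x y hxy => hinj (congrArg Subtype.val hxy), σ.hom.rangeRestrict_surjective⟩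
  let γ : Γ(Z, W) →+* X.presheaf.stalk w :=
    (e.symm : σ.hom.range →+* X.presheaf.stalk w).comp (α.hom.codRestrict σ.hom.range hr)
  have hγ : CommRingCat.ofHom γ ≫ σ = α := by
    ext a
    change σ.hom (e.symm ⟨α.hom a, hr a⟩) = α.hom a
    exact congrArg Subtype.val (e.apply_symm_apply ⟨α.hom a, hr a⟩)
  refine ⟨Spec.map (CommRingCat.ofHom γ) ≫ hW.fromSpec, ?_⟩
  rw [← hζ, ← hγ, Spec.map_comp, Category.assoc]
  rfl

end LibMX2
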