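import Pool.Agent.LibMX2.Defs

namespace LibMX2

open AlgebraicGeometry CategoryTheory TopologicalSpace

lemma s7_fromSpec {k : Type} [Field k] {X : Scheme.{0}} (s : X ⟶ Spec (.of k))
    (U : X.Opens) (hU : IsAffineOpen U) :
    hU.fromSpec ≫ s = Spec.map (CommRingCat.ofHom (kmap s U)) := by
  have h := IsAffineOpen.SpecMap_appLE_fromSpec s (isAffineOpen_top (Spec (.of k))) hU le_top
  rw [← h, IsAffineOpen.fromSpec_top, Scheme.isoSpec_Spec_inv, ← Spec.map_comp]
  rfl

lemma s7_kmap_res {k : Type} [Field k] {X : Scheme.{0}} [IsIntegral X] (s : X ⟶ Spec (.of k))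
    (U U' : X.Opens) [Nonempty U] [Nonempty U'] (h : U' ≤ U) :
    (res X U).comp (kmap s U) = (res X U').comp (kmap s U') := by
  have e : s.appLE ⊤ U le_top ≫ X.germToFunctionField U =
      s.appLE ⊤ U' le_top ≫ X.germToFunctionField U' := by
    have h1 : s.appLE ⊤ U' le_top = s.appLE ⊤ U le_top ≫ X.presheaf.map (homOfLE h).op := by
      rw [Scheme.Hom.appLE_map]
    rw [h1, Category.assoc]
    congr 1
    unfold Scheme.germToFunctionField
    rw [TopCat.Presheaf.germ_res]
  have e2 : ((Scheme.ΓSpecIso (.of k)).inv ≫ s.appLE ⊤ U le_top) ≫ X.germToFunctionField U =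
      ((Scheme.ΓSpecIso (.of k)).inv ≫ s.appLE ⊤ U' le_top) ≫ X.germToFunctionField U' := by
    rw [Category.assoc, Category.assoc, e]
  have e3 := congrArg CommRingCat.Hom.hom e2
  exact e3

lemma s7_gen {k : Type} [Field k] {X : Scheme.{0}} [IsIntegral X] (s : X ⟶ Spec (.of k))
    (U : X.Opens) [Nonempty U] :
    gen X ≫ s = Spec.map (CommRingCat.ofHom ((res X U).comp (kmap s U))) := by
  obtain ⟨x⟩ := ‹Nonempty U›
  obtain ⟨U', h₁, h₂, h₃⟩ := Opens.isBasis_iff_nbhd.mp X.isBasis_affineOpens x.2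
  have h₁' : IsAffineOpen U' := h₁
  have : Nonempty U' := ⟨⟨_, h₂⟩⟩
  rw [s7_kmap_res s U U' h₃]
  have hη : genericPoint X ∈ U' := ((genericPoint_spec X).mem_open_set_iff U'.isOpen).2
    (by simpa using ⟨_, h₂⟩)
  show X.fromSpecStalk _ ≫ s = _
  rw [← h₁'.fromSpecStalk_eq_fromSpecStalk hη, IsAffineOpen.fromSpecStalk, Category.assoc,
    s7_fromSpec, ← Spec.map_comp]
  rfl

theorem glue3 {k : Type} [Field k] (X Z : Scheme.{0}) [IsIntegral X] (sX : X ⟶ Spec (.of k))
    (sZ : Z ⟶ Spec (.of k)) [UniversallyClosed sZ] (ζ : Spec X.functionField ⟶ Z)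
    (hζ : ζ ≫ sZ = gen X ≫ sX) (U : X.Opens) [Nonempty U] (V : ValuationSubring X.functionField)
    (hV : ∀ t, res X U t ∈ V) :
    ∃ (W : Z.Opens) (α : Γ(Z, W) ⟶ X.functionField), Chart X Z ζ W α ∧ (∀ a, α.hom a ∈ V) ∧
      α.hom.comp (kmap sZ W) = (res X U).comp (kmap sX U) := by
  have hE : ValuativeCriterion.Existence sZ := by
    have h : UniversallyClosed sZ := inferInstance
    rw [UniversallyClosed.eq_valuativeCriterion] at h
    exact h.1
  let f0 : k →+* X.functionField := (res X U).comp (kmap sX U)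
  let f : k →+* V := f0.codRestrict V.toSubring (fun c => hV _)
  have hf : (algebraMap V X.functionField).comp f = f0 := rfl
  let S : ValuativeCommSq sZ :=
    { R := V
      K := X.functionField
      i₁ := ζ
      i₂ := Spec.map (CommRingCat.ofHom f)
      commSq := ⟨by
        rw [hζ, s7_gen sX U, ← Spec.map_comp]
        rfl⟩ }
  obtain ⟨⟨ψ, h1, h2⟩⟩ := (hE S).exists_lift
  have h1' : Spec.map (CommRingCat.ofHom (algebraMap V X.functionField)) ≫ ψ = ζ := h1
  obtain ⟨W, hW₁, hW₂, -⟩ := Opens.isBasis_iff_nbhd.mp Z.isBasis_affineOpens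
    (show (ψ (IsLocalRing.closedPoint V) : Z) ∈ (⊤ : Z.Opens) from trivial)
  have hW : IsAffineOpen W := hW₁
  let γ : Γ(Z, W) ⟶ CommRingCat.of V := Z.presheaf.germ W _ hW₂ ≫ Scheme.stalkClosedPointTo ψ
  have hγ : Spec.map γ ≫ hW.fromSpec = ψ := by
    have := Scheme.Spec_stalkClosedPointTo_fromSpecStalk ψ
    rw [← hW.fromSpecStalk_eq_fromSpecStalk hW₂, IsAffineOpen.fromSpecStalk] at this
    rw [← this]
    simp only [γ, Spec.map_comp, Category.assoc]
  let α : Γ(Z, W) ⟶ X.functionField := γ ≫ CommRingCat.ofHom (algebraMap V X.functionField)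
  have hα : Spec.map α ≫ hW.fromSpec = ζ := by
    simp only [α, Spec.map_comp, Category.assoc]
    rw [hγ]
    exact h1'
  refine ⟨W, α, ⟨hW, hα⟩, fun a => ?_, ?_⟩
  · exact (γ.hom a).2
  · have e : Spec.map (CommRingCat.ofHom (α.hom.comp (kmap sZ W))) =
        Spec.map (CommRingCat.ofHom ((res X U).comp (kmap sX U))) := by
      rw [← s7_gen sX U, ← hζ, ← hα, Category.assoc, s7_fromSpec, ← Spec.map_comp]
      rfl
    have e2 := Spec.map_injective e
    exact congrArg CommRingCat.Hom.hom e2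

end LibMX2
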