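import Pool.Agent.LibMX2.Defs
import Pool.Agent.LibMX2.A14
import Pool.Agent.LibMX2.A16
import Pool.Agent.LibMX2.S1
import Pool.Agent.LibMX2.S3
import Pool.Agent.LibMX2.S4
import Pool.Agent.LibMX2.S5
import Pool.Agent.LibMX2.S6
import Pool.Agent.LibMX2.S7

/-! MX2 row S8 (MP_498328_ag). -/

namespace LibMX2

open AlgebraicGeometry CategoryTheory TopologicalSpace

/-- every rational function is a quotient of sections over an affine open -/
theorem s8_frac (X : Scheme.{0}) [IsIntegral X] (U : X.Opens) (hU : IsAffineOpen U)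
    [Nonempty U] : ∀ x : X.functionField, ∃ s t, res X U t ≠ 0 ∧ x * res X U t = res X U s := by
  intro x
  have := functionField_isFractionRing_of_isAffineOpen X U hU
  obtain ⟨⟨s, t⟩, h⟩ := IsLocalization.surj (nonZeroDivisors Γ(X, U)) x
  refine ⟨s, t.1, ?_, h⟩
  intro h0
  exact nonZeroDivisors.ne_zero t.2 ((map_eq_zero_iff (res X U)
    (X.germToFunctionField_injective U)).1 h0)

/-- the stalk is factorial iff the localisation is -/
theorem s8_ufd (X : Scheme.{0}) [IsIntegral X] (U : X.Opens) (hU : IsAffineOpen U) (x : X)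
    (hx : x ∈ U) (h : UniqueFactorizationMonoid (X.presheaf.stalk x)) :
    UniqueFactorizationMonoid (Localization.AtPrime (hU.primeIdealOf ⟨x, hx⟩).asIdeal) := by
  let := X.presheaf.algebra_section_stalk ⟨x, hx⟩
  have h1 := hU.isLocalization_stalk ⟨x, hx⟩
  exact (IsLocalization.algEquiv (hU.primeIdealOf ⟨x, hx⟩).asIdeal.primeCompl
    (X.presheaf.stalk x) (Localization.AtPrime
      (hU.primeIdealOf ⟨x, hx⟩).asIdeal)).toMulEquiv.uniqueFactorizationMonoid h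

theorem s8_mem {X : Scheme.{0}} (U : X.Opens) (hU : IsAffineOpen U)
    (P : PrimeSpectrum Γ(X, U)) : hU.fromSpec P ∈ U := by
  have h : hU.fromSpec P ∈ Set.range hU.fromSpec := ⟨P, rfl⟩
  rw [hU.range_fromSpec] at h
  exact h

theorem s8_prime {X : Scheme.{0}} (U : X.Opens) (hU : IsAffineOpen U)
    (P : PrimeSpectrum Γ(X, U)) : hU.primeIdealOf ⟨hU.fromSpec P, s8_mem U hU P⟩ = P := by
  apply hU.fromSpec.isOpenEmbedding.injective
  exact hU.fromSpec_primeIdealOf _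

theorem s8_spec {X : Scheme.{0}} (U : X.Opens) (hU : IsAffineOpen U)
    (P : PrimeSpectrum Γ(X, U)) (x : X) (hx : x ∈ U)
    (h : P.asIdeal ≤ (hU.primeIdealOf ⟨x, hx⟩).asIdeal) : hU.fromSpec P ⤳ x := by
  have h1 : P ⤳ hU.primeIdealOf ⟨x, hx⟩ := (PrimeSpectrum.le_iff_specializes _ _).1 h
  have h2 := h1.map hU.fromSpec.continuous
  rwa [hU.fromSpec_primeIdealOf] at h2

theorem ext_pt {k : Type} [Field k] (X Z : Scheme.{0}) [IsIntegral X] (sX : X ⟶ Spec (.of k))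
    (sZ : Z ⟶ Spec (.of k)) [LocallyOfFiniteType sX] [IsProper sZ] (ζ : Spec X.functionField ⟶ Z)
    (hζ : ζ ≫ sZ = gen X ≫ sX) (r : ℕ)
    (hdim : topologicalKrullDim Z + r < topologicalKrullDim X) (x : X)
    (hx : UniqueFactorizationMonoid (X.presheaf.stalk x))
    (h : ∀ w : X, w ⤳ x → (r : WithBot ℕ∞) ≤ topologicalKrullDim (closure {w} : Set X) →
      Ext X Z ζ w) : Ext X Z ζ x := by
  obtain ⟨U, hU, hxU, -⟩ :=
    exists_isAffineOpen_mem_and_subset (X := X) (x := x) (U := ⊤) trivial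
  have : Nonempty U := ⟨⟨x, hxU⟩⟩
  have hinj : Function.Injective (res X U) := X.germToFunctionField_injective U
  obtain ⟨V, hV⟩ := exists_val (res X U) hinj (hU.primeIdealOf ⟨x, hxU⟩).asIdeal
  obtain ⟨W, α, hα, hαV, hαk⟩ := glue3 X Z sX sZ ζ hζ U V hV.1
  by_contra hcon
  have h6 : ∃ a, ¬ InLoc (res X U) (hU.primeIdealOf ⟨x, hxU⟩).asIdeal (α.hom a) := by
    by_contra h'
    push Not at h'
    exact hcon (glue2 X Z ζ U hU x hxU W α hα h')
  obtain ⟨a, ha⟩ := h6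
  have hUFD := s8_ufd X U hU x hxU hx
  obtain ⟨hW, -⟩ := id hα
  have hdim' : ∀ P : Ideal Γ(Z, W), P.IsPrime → tr (quo (kmap sZ W) P) + r < tr (kmap sX U) := by
    intro P hP
    have h1 := tr_le_closure sZ W hW ⟨P, hP⟩
    have h2 := topologicalKrullDim_subspace_le Z (closure {hW.fromSpec ⟨P, hP⟩} : Set Z)
    have h3 := dim_le sX U hU
    have h4 : ((tr (quo (kmap sZ W) P) + r : ℕ) : WithBot ℕ∞) <
        (tr (kmap sX U) : WithBot ℕ∞) := by
      calc ((tr (quo (kmap sZ W) P) + r : ℕ) : WithBot ℕ∞)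
          = (tr (quo (kmap sZ W) P) : WithBot ℕ∞) + r := by push_cast; rfl
        _ ≤ topologicalKrullDim Z + r := add_le_add_left (h1.trans h2) _
        _ < topologicalKrullDim X := hdim
        _ ≤ _ := h3
    exact_mod_cast h4
  obtain ⟨P, hP, hPm, hr, haP, V', hV', hαV'⟩ := core (res X U) hinj (s8_frac X U hU)
    (kmap sX U) (kmap_ft sX U hU) (hU.primeIdealOf ⟨x, hxU⟩).asIdeal hUFD (kmap sZ W)
    (kmap_ft sZ W hW) α.hom hαk V hV hαV r hdim' a ha
  have hpr : hU.primeIdealOf ⟨hU.fromSpec ⟨P, hP⟩, s8_mem U hU ⟨P, hP⟩⟩ = ⟨P, hP⟩ :=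
    s8_prime U hU ⟨P, hP⟩
  have hE : Ext X Z ζ (hU.fromSpec ⟨P, hP⟩) := by
    apply h _ (s8_spec U hU ⟨P, hP⟩ x hxU hPm)
    exact le_trans (by exact_mod_cast hr) (tr_le_closure sX U hU ⟨P, hP⟩)
  have h5 := glue1 X Z sZ ζ U hU (hU.fromSpec ⟨P, hP⟩) (s8_mem U hU ⟨P, hP⟩) hE W α hα V'
    (by rw [hpr]; exact hV') hαV' a
  rw [hpr] at h5
  exact haP h5

end LibMX2
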